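import Pool.Agent.Helper35.AT.Defs

set_option autoImplicit false

namespace Pool.Agent.Helper35.AT

theorem t9_count (N k : ℕ) (hk : k ≤ N) (p : ℕ → Bool) (h1 : ∀ i, i < k → p i = true)
    (h2 : ∀ i, k ≤ i → i < N → p i = false) : ((List.range N).filter p).length = k := by
  obtain ⟨m, rfl⟩ := Nat.exists_eq_add_of_le hk
  rw [List.range_add, List.filter_append, List.length_append]
  have e1 : (List.range k).filter p = List.range k := by
    rw [List.filter_eq_self]
    intro a ha
    exact h1 a (List.mem_range.1 ha)
  have e2 : ((List.range m).map (k + ·)).filter p = [] := by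
    rw [List.filter_eq_nil_iff]
    intro a ha
    rw [List.mem_map] at ha
    obtain ⟨b, hb, rfl⟩ := ha
    rw [List.mem_range] at hb
    rw [h2 (k + b) (by omega) (by omega)]
    simp
  rw [e1, e2, List.length_range]
  simp

theorem t9_getD {α β : Type} (d : β) (n : ℕ) (g : α → List β) :
    ∀ (l : List α), (∀ x ∈ l, (g x).length = n) → ∀ (a b : ℕ) (ha : a < l.length), b < n →
      (l.flatMap g).getD (a * n + b) d = (g (l[a]'ha)).getD b d := by
  intro l
  induction l with
  | nil => intro _ a b ha; exact absurd ha (Nat.not_lt_zero _)
  | cons x l ih =>
    intro hg a b ha hb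
    rw [List.flatMap_cons]
    have hx : (g x).length = n := hg x List.mem_cons_self
    cases a with
    | zero =>
      rw [zero_mul, zero_add, List.getD_append _ _ _ _ (by omega)]
      rfl
    | succ a =>
      rw [List.getD_append_right _ _ _ _ (by rw [hx]; nlinarith), hx]
      have e : (a + 1) * n + b - n = a * n + b := by
        rw [Nat.succ_mul]
        omega
      rw [e]
      exact ih (fun y hy => hg y (List.mem_cons_of_mem _ hy)) a b
        (by simpa using ha) hb

/-- MODULE AT-9. Decoding. -/
theorem decode (k n : ℕ) (G : SimpleGraph (Fin n)) :
    kOf (code k G) = k ∧ nOf (code k G) = n ∧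
      ∀ a b : Fin n, hOf (code k G) a.1 b.1 = true ↔ G.Adj a b := by
  classical
  set r : List Bool := (List.finRange n).flatMap
    (fun i => (List.finRange n).map (fun j => decide (G.Adj i j))) with hr
  have hcode : code k G = List.replicate k true ++ false :: r := by
    rw [hr]
    unfold code
    congr!
  have hrl : r.length = n * n := by
    rw [hr, List.length_flatMap]
    simp
  have hk : kOf (code k G) = k := by
    rw [hcode]
    unfold kOf
    apply t9_count
    · simp
    · intro i hi
      rw [List.take_append_of_le_length (by simp; omega)]
      rw [List.all_eq_true]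
      intro x hx
      have := List.mem_of_mem_take hx
      exact (List.mem_replicate.1 this).2
    · intro i hi _
      rw [List.take_append, List.all_append]
      simp only [List.length_replicate]
      have e : i + 1 - k = (i - k) + 1 := by omega
      rw [e, List.take_succ_cons]
      simp
  have hrest : rest (code k G) = r := by
    unfold rest
    rw [hk, hcode, List.drop_append]
    simp
  have hn : nOf (code k G) = n := by
    unfold nOf
    rw [hrest, hrl]
    apply t9_count
    · nlinarith
    · intro i hi
      rw [decide_eq_true_eq]
      exact Nat.mul_le_mul hi hi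
    · intro i hi _
      rw [decide_eq_false_iff_not, not_le]
      exact Nat.mul_lt_mul'' (by omega) (by omega)
  refine ⟨hk, hn, ?_⟩
  intro a b
  unfold hOf
  rw [hrest, hn, hr]
  rw [t9_getD false n _ (List.finRange n) (by simp) a.1 b.1 (by simp) b.2]
  simp

end Pool.Agent.Helper35.AT
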