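import Pool.Agent.Helper69.TM.Equiv

/-!
# Composition of a polynomial time map with an arbitrary Turing machine
-/

set_option autoImplicit false
set_option linter.all false

namespace Pool.Agent.Helper35.AT

open Pool.Agent.Helper96 Pool.Agent.Helper69.TM Function Turing StateTransition Computability

/-- A machine `tm` with an arbitrary running time after a polynomial time map `r`. -/
theorem compose (tm : FinTM2) (ein : Bool → tm.Γ tm.k₀) (eout : Bool → tm.Γ tm.k₁)
    (heo : eout true ≠ eout false) (r : List Bool → List Bool) (hr : PolyTimeFun r) :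
    ∃ (tm' : FinTM2) (ein' : Bool → tm'.Γ tm'.k₀) (eout' : Bool → tm'.Γ tm'.k₁) (D : ℕ),
      eout' true ≠ eout' false ∧ (∀ w, (r w).length ≤ (w.length + 2) ^ D) ∧
      ∀ (w : List Bool) (b : Bool) (N : ℕ),
        Nonempty (TM2OutputsInTime tm ((r w).map ein) (some [eout b]) N) →
        Nonempty (TM2OutputsInTime tm' (w.map ein') (some [eout' b])
          (D * (N + (w.length + 2) ^ D))) := by
  classical
  obtain ⟨h⟩ := hr
  letI := tm.kDecidableEq
  letI := tm.kFin
  letI := tm.ΛFin
  letI := tm.σFin
  letI := tm.Γk₀Fin
  -- the keys of the symbols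
  obtain ⟨key, hkey⟩ : ∃ key : tm.Γ tm.k₀ → ℕ, Injective key :=
    ⟨fun x => (Fintype.equivFin (tm.Γ tm.k₀) x).val,
      fun x y hxy => (Fintype.equivFin (tm.Γ tm.k₀)).injective (Fin.ext hxy)⟩
  set val : tm.Γ tm.k₁ → ℕ := fun y => if y = eout true then 1 else 0 with hval
  have hval' : ∀ b, val (eout b) = nB b := by
    intro b
    cases b
    · simp [hval, nB, sym, Ne.symm heo]
    · simp [hval, nB, sym]
  obtain ⟨P1, k1, hP1⟩ := raw_of_tm h nB nB_inj (fun b => key (ein b))
  obtain ⟨P2, C, hP2⟩ := raw_general tm.m tm.k₀ tm.k₁ tm.main tm.initialState key hkey val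
  have hlen : ∀ w : List Bool, (r w).length ≤ w.length + (w.length + 2) ^ k1 := by
    intro w
    obtain ⟨t, ht, hex⟩ := hP1 w (update (fun _ => []) 1 (w.map nB).reverse) [] (by simp)
      (by simp)
    have := hex.length_le 1
    simp only [Function.update_self, List.length_append, List.length_reverse, List.length_map,
      List.length_nil] at this
    simp only [id] at this ht
    omega
  set P : Cmd := Cmd.seq P1 P2 with hP
  have hrunP : ∀ (w : List Bool) (b : Bool) (N : ℕ),
      Nonempty (TM2OutputsInTime tm ((r w).map ein) (some [eout b]) N) →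
      Run P (update (fun _ => []) 1 (w.map nB).reverse)
        ((w.length + 2) ^ k1 + C * ((r w).length + N + 1) + 1)
        (update (fun _ => []) 1 [nB b]) := by
    rintro w b N ⟨ho⟩
    have hsteps : ho.steps ≤ N := ho.steps_le_m
    have hrun := ho.evals_in_steps
    have e1 : initList tm ((r w).map ein) =
        (⟨some tm.main, tm.initialState,
          update (fun _ => []) tm.k₀ ((r w).map ein)⟩ : TM2.Cfg tm.Γ tm.Λ tm.σ) := by
      unfold initList
      congr 1
      funext k
      by_cases hk : k = tm.k₀
      · subst hk
        rw [Function.update_self]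
        simp
      · rw [Function.update_of_ne hk, dif_neg hk]
    have e2 : haltList tm [eout b] =
        (⟨none, tm.initialState,
          update (fun _ => []) tm.k₁ [eout b]⟩ : TM2.Cfg tm.Γ tm.Λ tm.σ) := by
      unfold haltList
      congr 1
      funext k
      by_cases hk : k = tm.k₁
      · subst hk
        rw [Function.update_self]
        simp
      · rw [Function.update_of_ne hk, dif_neg hk]
    have hrun' : (flip bind (TM2.step tm.m))^[ho.steps]
        (some (⟨some tm.main, tm.initialState,
          update (fun _ => []) tm.k₀ ((r w).map ein)⟩ : TM2.Cfg tm.Γ tm.Λ tm.σ)) =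
        some (⟨none, tm.initialState,
          update (fun _ => []) tm.k₁ [eout b]⟩ : TM2.Cfg tm.Γ tm.Λ tm.σ) := by
      rw [← e1, ← e2]
      exact hrun
    have p1 := hP1 w (update (fun _ => []) 1 (w.map nB).reverse) [] (by simp) (by simp)
    have p2 := hP2 ((r w).map ein) [eout b] ho.steps tm.initialState
      (update (update (fun _ => []) 1 (w.map nB).reverse) 1
        (((id (r w) : List Bool).map fun b => key (ein b)).reverse ++ [])) [] hrun' (by simp)
      (by simp [Function.comp_def])
    have p3 := p1.seq p2
    have e3 : update (update (update (fun _ => ([] : List ℕ)) 1 (w.map nB).reverse) 1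
        (((id (r w) : List Bool).map fun b => key (ein b)).reverse ++ [])) 1
        (([eout b].map val).reverse ++ []) = update (fun _ => []) 1 [nB b] := by
      simp [hval']
    rw [e3] at p3
    refine p3.mono ?_
    rw [List.length_map]
    have : C * ((r w).length + ho.steps + 1) ≤ C * ((r w).length + N + 1) :=
      Nat.mul_le_mul_left _ (by omega)
    simp only [id]
    omega
  obtain ⟨n0, g0, hok⟩ := exists_ok P
  obtain ⟨ga, hga⟩ := exists_bound nB
  set n := max n0 2 with hn
  set g := max g0 ga with hg
  have hok' : P.ok n g := ok_mono (le_max_left _ _) (le_max_left _ _) _ hok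
  have hga' : ∀ a, nB a < g := fun a => lt_of_lt_of_le (hga a) (le_max_right _ _)
  have h1n : 1 < n := lt_of_lt_of_le (by norm_num) (le_max_right _ _)
  refine ⟨mach (A := Bool) (B := Bool) nB dB P n g, (fun b => b : Bool → Bool),
    (fun b => b : Bool → Bool), 8 + k1 + 4 * C, ?_, ?_, ?_⟩
  · change (true : Bool) ≠ false
    decide
  · intro w
    refine (hlen w).trans ?_
    have h1 : w.length + (w.length + 2) ^ k1 ≤ (w.length + 2) ^ (k1 + 1) * 1 := by
      rw [pow_succ, mul_one]
      have : 1 ≤ (w.length + 2) ^ k1 := Nat.one_le_pow _ _ (by omega)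
      nlinarith
    rw [mul_one] at h1
    exact h1.trans (Nat.pow_le_pow_right (by omega) (by omega))
  · intro w b N hN
    obtain ⟨N', hN', hrun⟩ := full_run (A := Bool) (B := Bool) nB dB hok' h1n w [nB b]
      (fun b _ => hga' b) (by
        intro x hx
        rw [List.mem_singleton] at hx
        subst hx
        exact hga' b) _ (hrunP w b N hN)
    have hout : (([nB b].map dB).reverse : List Bool) = [b] := by
      simp [dB_nB]
    rw [hout] at hrun
    refine ⟨⟨⟨N', ?_⟩, ?_⟩⟩
    · have e0 : List.map (fun b => b : Bool → Bool) w = w := by simp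
      have e1 : initList (mach (A := Bool) (B := Bool) nB dB P n g)
          (List.map (fun b => b : Bool → Bool) w) =
          cfg P n g (some none) (fun _ => []) w [] := by
        refine (congrArg (initList (mach (A := Bool) (B := Bool) nB dB P n g)) e0).trans ?_
        unfold initList cfg
        congr 1
        funext k
        match k with
        | none => rfl
        | some none => rfl
        | some (some i) => rfl
      have e2 : haltList (mach (A := Bool) (B := Bool) nB dB P n g) [b] =
          cfg P n g none (fun _ => []) [] [b] := by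
        unfold haltList cfg
        congr 1
        funext k
        match k with
        | none => rfl
        | some none => rfl
        | some (some i) => rfl
      refine Eq.trans ?_ (hrun.trans ?_)
      · exact congrArg _ (congrArg some e1)
      · exact (congrArg some e2).symm
    · refine hN'.trans ?_
      have h0 := hlen w
      simp only [List.length_singleton]
      obtain ⟨X, hX⟩ : ∃ X, X = (w.length + 2) ^ k1 := ⟨_, rfl⟩
      obtain ⟨Y, hY⟩ : ∃ Y, Y = (w.length + 2) ^ (8 + k1 + 4 * C) := ⟨_, rfl⟩
      rw [← hX] at h0
      rw [← hX, ← hY]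
      have hX1 : X ≤ Y := by
        rw [hX, hY]
        exact Nat.pow_le_pow_right (by omega) (by omega)
      have hY1 : w.length + 2 ≤ Y := by
        rw [hY]
        calc w.length + 2 = (w.length + 2) ^ 1 := (pow_one _).symm
          _ ≤ _ := Nat.pow_le_pow_right (by omega) (by omega)
      have h2 : C * ((r w).length + N + 1) ≤ C * (2 * Y + N) :=
        Nat.mul_le_mul_left _ (by omega)
      have h3 : w.length + (X + C * ((r w).length + N + 1) + 1) + 1 + 3 ≤
          w.length + (X + C * (2 * Y + N) + 1) + 1 + 3 := by omega
      refine h3.trans ?_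
      have h4 : (8 + k1 + 4 * C) * (N + Y) =
          8 * N + 8 * Y + k1 * (N + Y) + 4 * (C * N) + 4 * (C * Y) := by ring
      have h5 : C * (2 * Y + N) = 2 * (C * Y) + C * N := by ring
      rw [h4, h5]
      have h6 : 0 ≤ k1 * (N + Y) := Nat.zero_le _
      omega

end Pool.Agent.Helper35.AT
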