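import Mathlib

/-!
# Colouring AT-free graphs: the token graphs

Project AT (MP_9ea300_lc). See `/team-store/helper35_AT_Proof.txt`.
-/

set_option autoImplicit false

namespace Pool.Agent.Helper35.AT

/-- `G` has no asteroidal triple (the form of the frozen statement) -/
def ATFree {V : Type} (G : SimpleGraph V) : Prop :=
  ¬ ∃ x y z : V,
    (∃ p : G.Walk x y, ∀ v ∈ p.support, v ≠ z ∧ ¬ G.Adj z v) ∧
    (∃ p : G.Walk y z, ∀ v ∈ p.support, v ≠ x ∧ ¬ G.Adj x v) ∧
    (∃ p : G.Walk x z, ∀ v ∈ p.support, v ≠ y ∧ ¬ G.Adj y v)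

/-- a vertex `(i, g, j, s)`: phase `i`, group `g`, lane `j`, position `s` -/
abbrev P : Type := ℕ × ℕ × ℕ × ℕ

/-- positions `s < t` of a lane which are adjacent in the wire -/
def WireUp (s t : ℕ) : Prop :=
  t = s + 2 ∨ (t = s + 1 ∧ s % 3 = 1) ∨ (t = s + 3 ∧ s % 3 = 0)

/-- positions `s < t` of a lane which are adjacent; an active lane has two more edges -/
def LaneUp (B : ℕ) (act : Prop) (s t : ℕ) : Prop :=
  WireUp s t ∨ (act ∧ ((s = 0 ∧ t = 1) ∨ (s = 9 * B + 5 ∧ t = 9 * B + 6)))

/-- the block of a position -/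
def block (s : ℕ) : ℕ := (s + 1) / 9

/-- the lane of `v` is active in the phase of `v` -/
def Act (v : P) : Prop := v.2.1 = v.1 % 2

/-- the two vertices are in the same lane (not necessarily in the same phase) -/
def Same (v w : P) : Prop := v.2.1 = w.2.1 ∧ v.2.2.1 = w.2.2.1

/-- the position of `v` is not after, and the position of `w` after an admissible `u` -/
def Pass (B : ℕ) (A : ℕ → ℕ → ℕ → Prop) (v w : P) : Prop :=
  ∃ u, u < B ∧ A w.1 w.2.2.1 u ∧ block v.2.2.2 ≤ u ∧ u < block w.2.2.2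

/-- `v` comes before `w` and they are adjacent -/
def Up (B : ℕ) (A : ℕ → ℕ → ℕ → Prop) (v w : P) : Prop :=
  (v.1 = w.1 ∧ Same v w ∧ LaneUp B (Act v) v.2.2.2 w.2.2.2) ∨
  (v.1 = w.1 ∧ ¬ Same v w) ∨
  (v.1 + 1 = w.1 ∧ ¬ Same v w ∧ ¬ (Act v ∧ Act w ∧ Pass B A v w))

/-- the vertices: `M` phases, two groups of `k` lanes, `9 B + 7` positions -/
def Good (M k B : ℕ) (v : P) : Prop :=
  v.1 < M ∧ v.2.1 < 2 ∧ v.2.2.1 < k ∧ v.2.2.2 < 9 * B + 7

/-- the vertex set -/
abbrev V (M k B : ℕ) : Type := {v : P // Good M k B v}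

/-- the token graph of the schedule `A` -/
def TG (M k B : ℕ) (A : ℕ → ℕ → ℕ → Prop) : SimpleGraph (V M k B) :=
  SimpleGraph.fromRel fun v w => Up B A v.1 w.1

/-- timers of the `k` active lanes in the phases `i` with `i + 1 < M`, running through the
schedule -/
def Game (k B M : ℕ) (A : ℕ → ℕ → ℕ → Prop) : Prop :=
  ∃ f : ℕ → Fin k → ℕ, (∀ i, i + 1 < M → ∀ X, f i X < B) ∧
    ∀ i, i + 2 < M → ∃ π : Equiv.Perm (Fin k), ∀ Y : Fin k,
      ∃ u, A (i + 1) Y.1 u ∧ f i (π Y) ≤ u ∧ u ≤ f (i + 1) Y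

/-! ### The clique schedule -/

/-- the number of checks of a round -/
def TT (k n : ℕ) : ℕ := 1 + k * k * n * n

/-- what is allowed in lane `Y` by the check of two lanes `j < l` and two non-adjacent `a`, `b` -/
def Check (n j l a b Y u : ℕ) : Prop :=
  (Y = l ∧ (u / n = j ∨ u / n = l)) ∨
  (Y = j ∧ Y ≠ l ∧ ((u / n = j ∧ u % n ≠ a) ∨ (u / n = l ∧ u % n ≠ b))) ∨
  (Y ≠ j ∧ Y ≠ l ∧ u / n = Y)

/-- the check number `e`: is it a check of two lanes `j < l` and two non-adjacent `a`, `b`? -/
def IsCheck (k n : ℕ) (h : ℕ → ℕ → Bool) (e : ℕ) : Prop :=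
  e / n / n / k < e / n / n % k ∧ h (e / n % n) (e % n) = false

/-- the schedule of the graph with adjacency `h` on `n` vertices: phase `i ≥ 1` makes check
number `(i - 1) % TT k n` -/
def Sched (k n : ℕ) (h : ℕ → ℕ → Bool) (i Y u : ℕ) : Prop :=
  ((i - 1) % TT k n ≠ 0 ∧ IsCheck k n h ((i - 1) % TT k n - 1) ∧
    Check n (((i - 1) % TT k n - 1) / n / n / k) (((i - 1) % TT k n - 1) / n / n % k)
      (((i - 1) % TT k n - 1) / n % n) (((i - 1) % TT k n - 1) % n) Y u) ∨
  (¬ ((i - 1) % TT k n ≠ 0 ∧ IsCheck k n h ((i - 1) % TT k n - 1)) ∧ u / n = Y)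

/-- the number of phases -/
def MM (k n : ℕ) : ℕ := TT k n * (k * (n * k) + 1) + 2

/-! ### The reduction on words -/

/-- all vertices -/
def verts (M k B : ℕ) : List P :=
  (List.range M).flatMap fun i => (List.range 2).flatMap fun g =>
    (List.range k).flatMap fun j => (List.range (9 * B + 7)).map fun s => (i, g, j, s)

open Classical in
/-- the adjacency matrix of the token graph -/
noncomputable def mat (M k B : ℕ) (A : ℕ → ℕ → ℕ → Prop) : List Bool :=
  (verts M k B).flatMap fun v => (verts M k B).map fun w =>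
    decide (v ≠ w ∧ (Up B A v w ∨ Up B A w v))

open Classical in
/-- the word of the instance `(G, k)` (the encoding of the frozen statement) -/
noncomputable def code (k : ℕ) {n : ℕ} (G : SimpleGraph (Fin n)) : List Bool :=
  List.replicate k true ++ false :: (List.finRange n).flatMap
    (fun i => (List.finRange n).map (fun j => decide (G.Adj i j)))

/-- the number of colours of a word -/
def kOf (w : List Bool) : ℕ :=
  ((List.range w.length).filter fun i => (w.take (i + 1)).all fun b => b).length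

/-- the adjacency matrix of a word -/
def rest (w : List Bool) : List Bool := w.drop (kOf w + 1)

/-- the number of vertices of a word -/
def nOf (w : List Bool) : ℕ :=
  ((List.range (rest w).length).filter fun q =>
    decide ((q + 1) * (q + 1) ≤ (rest w).length)).length

/-- the adjacency of a word -/
def hOf (w : List Bool) (a b : ℕ) : Bool := (rest w).getD (a * nOf w + b) false

/-- the reduction -/
noncomputable def red (w : List Bool) : List Bool :=
  List.replicate (7 * kOf w) true ++ false ::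
    mat (MM (kOf w) (nOf w)) (kOf w) (nOf w * kOf w) (Sched (kOf w) (nOf w) (hOf w))

end Pool.Agent.Helper35.AT
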