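import Pool.Agent.Helper35.AT.Comp
import Pool.Agent.Helper35.AT.Defs

/-!
# Fixed-parameter tractability passes from COLORING on AT-free graphs to CLIQUE
-/

set_option autoImplicit false

namespace Pool.Agent.Helper35.AT

open Pool.Agent.Helper96 Turing

/-- `Q` is decided, on the graphs with property `p`, by a Turing machine within `f k * (n + 1) ^ c`
steps, `f` computable -/
def FPT (p : ∀ n, SimpleGraph (Fin n) → Prop) (Q : ∀ n, SimpleGraph (Fin n) → ℕ → Prop) : Prop :=
  ∃ (tm : FinTM2) (ein : Bool → tm.Γ tm.k₀) (eout : Bool → tm.Γ tm.k₁) (f : ℕ → ℕ) (c : ℕ),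
    Computable f ∧ eout true ≠ eout false ∧
    ∀ (n : ℕ) (G : SimpleGraph (Fin n)), p n G → ∀ (k : ℕ) (d : Decidable (Q n G k)),
      Nonempty (TM2OutputsInTime tm ((code k G).map ein) (some [eout (@decide (Q n G k) d)])
        (f k * (n + 1) ^ c))

theorem mono_time {tm : FinTM2} {l : List (tm.Γ tm.k₀)} {l' : Option (List (tm.Γ tm.k₁))}
    {N N' : ℕ} (h : Nonempty (TM2OutputsInTime tm l l' N)) (hN : N ≤ N') :
    Nonempty (TM2OutputsInTime tm l l' N') := by
  obtain ⟨h⟩ := h
  exact ⟨⟨h.toEvalsTo, h.steps_le_m.trans hN⟩⟩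

theorem code_length (k : ℕ) {n : ℕ} (G : SimpleGraph (Fin n)) :
    (code k G).length = k + 1 + n * n := by
  unfold code
  simp only [List.length_append, List.length_replicate, List.length_cons, List.length_flatMap,
    List.length_map, List.length_finRange, List.map_const', List.sum_replicate, smul_eq_mul]
  omega

theorem primrec_pow (E : ℕ) : Primrec fun k : ℕ => (k + 3) ^ E := by
  induction E with
  | zero => simpa using Primrec.const 1
  | succ E ih =>
    have h : Primrec fun k : ℕ => k + 3 :=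
      Primrec.succ.comp (Primrec.succ.comp (Primrec.succ.comp Primrec.id))
    have := Primrec.nat_mul.comp ih h
    simpa [pow_succ] using this

theorem fpt_of_reduction (p p' : ∀ n, SimpleGraph (Fin n) → Prop)
    (Q Q' : ∀ n, SimpleGraph (Fin n) → ℕ → Prop) (r : List Bool → List Bool)
    (hr : PolyTimeFun r)
    (h : ∀ (k n : ℕ) (H : SimpleGraph (Fin n)), p' n H → ∃ (m : ℕ) (G : SimpleGraph (Fin m)),
      p m G ∧ r (code k H) = code (7 * k) G ∧ (Q m G (7 * k) ↔ Q' n H k))
    (hf : FPT p Q) : FPT p' Q' := by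
  classical
  obtain ⟨tm, ein, eout, f, c, hfc, heo, hd⟩ := hf
  obtain ⟨tm', ein', eout', D, heo', hlen, hc⟩ := compose tm ein eout heo r hr
  refine ⟨tm', ein', eout', fun k => D * (f (7 * k) + 1) * (k + 3) ^ ((D + 1) * c + D),
    2 * ((D + 1) * c + D), ?_, heo', ?_⟩
  · have h1 : Computable fun k : ℕ => 7 * k :=
      (Primrec.nat_mul.comp (Primrec.const 7) Primrec.id).to_comp
    have h2 : Computable fun k : ℕ => f (7 * k) + 1 := Computable.succ.comp (hfc.comp h1)
    have h3 : Computable fun k : ℕ => D * (f (7 * k) + 1) :=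
      Primrec.nat_mul.to_comp.comp (Computable.const D) h2
    exact Primrec.nat_mul.to_comp.comp h3 (primrec_pow _).to_comp
  · intro n H hH k d
    obtain ⟨m, G, hG, hcode, hiff⟩ := h k n H hH
    have h1 := hd m G hG (7 * k) (Classical.dec _)
    rw [← hcode] at h1
    have h2 := hc _ _ _ h1
    have e : @decide (Q m G (7 * k)) (Classical.dec _) = @decide (Q' n H k) d := by
      rw [Bool.eq_iff_iff, decide_eq_true_iff, decide_eq_true_iff]
      exact hiff
    rw [e] at h2
    refine mono_time h2 ?_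
    -- the bounds
    set W := (code k H).length + 2 with hW
    have hW1 : W ≤ (k + 3) * (n + 1) ^ 2 := by
      rw [hW, code_length]
      nlinarith [Nat.zero_le (k * n), Nat.zero_le (k * (n * n))]
    have hm : m + 1 ≤ W ^ (D + 1) := by
      have h3 := hlen (code k H)
      rw [hcode, code_length, ← hW] at h3
      have h4 : m ≤ m * m := Nat.le_mul_self m
      have h5 : 2 ≤ W := by omega
      rw [pow_succ]
      nlinarith
    have hN : f (7 * k) * (m + 1) ^ c ≤ f (7 * k) * W ^ ((D + 1) * c) := by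
      rw [pow_mul]
      exact Nat.mul_le_mul_left _ (Nat.pow_le_pow_left hm c)
    have hWpos : 1 ≤ W := by omega
    have h6 : W ^ ((D + 1) * c) ≤ W ^ ((D + 1) * c + D) := Nat.pow_le_pow_right hWpos (by omega)
    have h7 : W ^ D ≤ W ^ ((D + 1) * c + D) := Nat.pow_le_pow_right hWpos (by omega)
    have h8 : W ^ ((D + 1) * c + D) ≤ (k + 3) ^ ((D + 1) * c + D) *
        (n + 1) ^ (2 * ((D + 1) * c + D)) := by
      refine (Nat.pow_le_pow_left hW1 _).trans ?_
      rw [mul_pow, ← pow_mul]
    calc D * (f (7 * k) * (m + 1) ^ c + W ^ D)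
        ≤ D * (f (7 * k) * W ^ ((D + 1) * c + D) + W ^ ((D + 1) * c + D)) := by
          refine Nat.mul_le_mul_left _ (Nat.add_le_add (hN.trans ?_) h7)
          exact Nat.mul_le_mul_left _ h6
      _ = D * (f (7 * k) + 1) * W ^ ((D + 1) * c + D) := by ring
      _ ≤ D * (f (7 * k) + 1) * ((k + 3) ^ ((D + 1) * c + D) *
          (n + 1) ^ (2 * ((D + 1) * c + D))) := Nat.mul_le_mul_left _ h8
      _ = _ := by ring

end Pool.Agent.Helper35.AT
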