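import Pool.Agent.Helper35.AT.Defs
import Pool.Agent.Helper96.PolyList

set_option autoImplicit false

namespace Pool.Agent.Helper35.AT

open Pool.Agent.Helper96

/-- MODULE AT-10a. Division is computable in polynomial time (numbers in unary). -/
theorem poly_div {α : Type} [Enc α] {f g : α → ℕ} (hf : Poly f) (hg : Poly g) :
    Poly fun a => f a / g a := by
  have h : Poly fun a => if g a = 0 then 0 else
      ((List.range (f a)).filter (fun q => decide ((q + 1) * g a ≤ f a))).length := by
    refine Poly.ite_decide (p := fun a => g a = 0) (by fun_prop) (Helper96.Poly.const _) ?_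
    refine Poly.length (Poly.filter (h := fun a q => decide ((q + 1) * g a ≤ f a)) (by fun_prop) ?_)
    exact Poly.decide_le (by fun_prop) (by fun_prop)
  refine h.recast fun a => ?_
  congr 1
  split_ifs with h0
  · rw [h0, Nat.div_zero]
  · have hpos : 0 < g a := Nat.pos_of_ne_zero h0
    have e1 : (List.range (f a)).filter (fun q => decide ((q + 1) * g a ≤ f a)) =
        List.range (f a / g a) := by
      have hle : f a / g a ≤ f a := Nat.div_le_self _ _
      obtain ⟨d, hd⟩ := Nat.exists_eq_add_of_le hle
      conv_lhs => rw [hd]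
      rw [List.range_add, List.filter_append]
      have e2 : (List.range (f a / g a)).filter (fun q => decide ((q + 1) * g a ≤ f a / g a + d)) =
          List.range (f a / g a) := by
        rw [List.filter_eq_self]
        intro q hq
        rw [List.mem_range] at hq
        rw [decide_eq_true_eq, ← hd]
        calc (q + 1) * g a ≤ (f a / g a) * g a := Nat.mul_le_mul_right _ hq
          _ ≤ f a := Nat.div_mul_le_self _ _
      have e3 : ((List.range d).map (f a / g a + ·)).filter
          (fun q => decide ((q + 1) * g a ≤ f a / g a + d)) = [] := by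
        rw [List.filter_eq_nil_iff]
        intro q hq
        rw [List.mem_map] at hq
        obtain ⟨x, -, rfl⟩ := hq
        rw [decide_eq_true_eq, not_le, ← hd]
        calc f a < (f a / g a + 1) * g a := by
              have := Nat.lt_div_mul_add (a := f a) hpos
              rw [add_mul, one_mul]
              exact this
          _ ≤ (f a / g a + x + 1) * g a := Nat.mul_le_mul_right _ (by omega)
      rw [e2, e3, List.append_nil]
    rw [e1, List.length_range]

/-- MODULE AT-10b. -/
theorem poly_mod {α : Type} [Enc α] {f g : α → ℕ} (hf : Poly f) (hg : Poly g) :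
    Poly fun a => f a % g a := by
  have h : Poly fun a => f a - g a * (f a / g a) :=
    Poly.sub hf (Poly.mul hg (poly_div hf hg))
  refine h.recast fun a => ?_
  congr 1
  exact Nat.mod_def _ _

namespace T10

/-- a predicate is decidable in polynomial time -/
def PP {α : Type} [Enc α] (p : α → Prop) : Prop :=
  ∃ d : ∀ a, Decidable (p a), Poly (fun a => @decide (p a) (d a))

section
variable {α : Type} [Enc α]

theorem PP.and {p q : α → Prop} (hp : PP p) (hq : PP q) : PP (fun a => p a ∧ q a) := by
  obtain ⟨d, hd⟩ := hp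
  obtain ⟨e, he⟩ := hq
  exact ⟨fun a => inferInstance, Poly.decide_and hd he⟩

theorem PP.or {p q : α → Prop} (hp : PP p) (hq : PP q) : PP (fun a => p a ∨ q a) := by
  obtain ⟨d, hd⟩ := hp
  obtain ⟨e, he⟩ := hq
  exact ⟨fun a => inferInstance, Poly.decide_or hd he⟩

theorem PP.not {p : α → Prop} (hp : PP p) : PP (fun a => ¬ p a) := by
  obtain ⟨d, hd⟩ := hp
  exact ⟨fun a => inferInstance, Poly.decide_not hd⟩

theorem PP.eq {β : Type} [Enc β] [DecidableEq β] {f g : α → β} (hf : Poly f) (hg : Poly g) :
    PP (fun a => f a = g a) :=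
  ⟨fun a => inferInstance, Poly.decide_eq hf hg⟩

theorem PP.ne {β : Type} [Enc β] [DecidableEq β] {f g : α → β} (hf : Poly f) (hg : Poly g) :
    PP (fun a => f a ≠ g a) := (PP.eq hf hg).not

theorem PP.le {f g : α → ℕ} (hf : Poly f) (hg : Poly g) : PP (fun a => f a ≤ g a) :=
  ⟨fun a => inferInstance, Poly.decide_le hf hg⟩

theorem PP.lt {f g : α → ℕ} (hf : Poly f) (hg : Poly g) : PP (fun a => f a < g a) :=
  ⟨fun a => inferInstance, Poly.decide_lt hf hg⟩

theorem PP.poly {p : α → Prop} (hp : PP p) (d : ∀ a, Decidable (p a)) :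
    Poly (fun a => @decide (p a) (d a)) := by
  obtain ⟨e, he⟩ := hp
  exact Poly.decide_congr (fun a => Iff.rfl) he

theorem PP.ex {B : α → ℕ} {p : α → ℕ → Prop} (hB : Poly B)
    (hp : PP (fun q : α × ℕ => p q.1 q.2)) : PP (fun a => ∃ u, u < B a ∧ p a u) := by
  obtain ⟨d, hd⟩ := hp
  have h1 : Poly (fun a => (List.range (B a)).any (fun u => @decide (p a u) (d (a, u)))) :=
    Poly.any (h := fun a u => @decide (p a u) (d (a, u))) (by fun_prop) hd
  refine ⟨fun a => Classical.dec _, ?_⟩
  refine Poly.decide_congr (p := fun a =>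
    (List.range (B a)).any (fun u => @decide (p a u) (d (a, u))) = true)
    (dp := fun a => inferInstance) (fun a => ?_) (Poly.decide_bool h1)
  rw [List.any_eq_true]
  constructor
  · rintro ⟨u, hu, h⟩
    exact ⟨u, List.mem_range.1 hu, @of_decide_eq_true _ (d (a, u)) h⟩
  · rintro ⟨u, hu, h⟩
    exact ⟨u, List.mem_range.2 hu, @decide_eq_true _ (d (a, u)) h⟩

end

section
variable {α : Type} [Enc α]

attribute [local fun_prop] poly_div poly_mod

theorem poly_block {s : α → ℕ} (hs : Poly s) : Poly (fun a => block (s a)) := by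
  unfold block
  fun_prop

theorem poly_kOf {w : α → List Bool} (hw : Poly w) : Poly (fun a => kOf (w a)) := by
  unfold kOf
  refine Poly.length (Poly.filter
    (h := fun a i => ((w a).take (i + 1)).all fun b => b) (by fun_prop) ?_)
  exact Poly.all (h := fun _ b => b) (by fun_prop) (by fun_prop)

attribute [local irreducible] kOf
attribute [local fun_prop] poly_kOf

theorem poly_rest {w : α → List Bool} (hw : Poly w) : Poly (fun a => rest (w a)) := by
  unfold rest
  fun_prop

attribute [local irreducible] rest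
attribute [local fun_prop] poly_rest

theorem poly_nOf {w : α → List Bool} (hw : Poly w) : Poly (fun a => nOf (w a)) := by
  unfold nOf
  refine Poly.length (Poly.filter
    (h := fun a q => decide ((q + 1) * (q + 1) ≤ (rest (w a)).length)) (by fun_prop) ?_)
  exact Poly.decide_le (by fun_prop) (by fun_prop)

attribute [local irreducible] nOf
attribute [local fun_prop] poly_nOf

theorem poly_hOf {w : α → List Bool} {x y : α → ℕ} (hw : Poly w) (hx : Poly x) (hy : Poly y) :
    Poly (fun a => hOf (w a) (x a) (y a)) := by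
  unfold hOf
  exact Poly.listGetD (by fun_prop) (by fun_prop) (Helper96.Poly.const _)

attribute [local irreducible] hOf
attribute [local fun_prop] poly_hOf

theorem poly_TT {k n : α → ℕ} (hk : Poly k) (hn : Poly n) : Poly (fun a => TT (k a) (n a)) := by
  unfold TT
  fun_prop

attribute [local irreducible] TT
attribute [local fun_prop] poly_TT

theorem poly_MM {k n : α → ℕ} (hk : Poly k) (hn : Poly n) : Poly (fun a => MM (k a) (n a)) := by
  unfold MM
  fun_prop

attribute [local irreducible] MM block
attribute [local fun_prop] poly_MM poly_block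

theorem pp_Check {n j l x y Y u : α → ℕ} (hn : Poly n) (hj : Poly j) (hl : Poly l) (hx : Poly x)
    (hy : Poly y) (hY : Poly Y) (hu : Poly u) :
    PP (fun a => Check (n a) (j a) (l a) (x a) (y a) (Y a) (u a)) := by
  unfold Check
  repeat' first
    | refine PP.and ?_ ?_
    | refine PP.or ?_ ?_
    | exact PP.eq (by fun_prop) (by fun_prop)
    | exact PP.ne (by fun_prop) (by fun_prop)

theorem pp_IsCheck {w : α → List Bool} {k n e : α → ℕ} (hw : Poly w) (hk : Poly k) (hn : Poly n)
    (he : Poly e) : PP (fun a => IsCheck (k a) (n a) (hOf (w a)) (e a)) := by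
  unfold IsCheck
  refine PP.and ?_ ?_
  · exact PP.lt (by fun_prop) (by fun_prop)
  · exact PP.eq (poly_hOf hw (by fun_prop) (by fun_prop)) (Helper96.Poly.const _)

theorem pp_Sched {w : α → List Bool} {k n i Y u : α → ℕ} (hw : Poly w) (hk : Poly k)
    (hn : Poly n) (hi : Poly i) (hY : Poly Y) (hu : Poly u) :
    PP (fun a => Sched (k a) (n a) (hOf (w a)) (i a) (Y a) (u a)) := by
  unfold Sched
  have he : Poly (fun a => (i a - 1) % TT (k a) (n a)) := by fun_prop
  have h1 : PP (fun a => (i a - 1) % TT (k a) (n a) ≠ 0) := PP.ne he (Helper96.Poly.const _)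
  have h2 : PP (fun a => IsCheck (k a) (n a) (hOf (w a)) ((i a - 1) % TT (k a) (n a) - 1)) :=
    pp_IsCheck hw hk hn (Poly.pred he)
  refine PP.or (PP.and h1 (PP.and h2 ?_)) (PP.and (PP.not (PP.and h1 h2)) ?_)
  · exact pp_Check hn (by fun_prop) (by fun_prop) (by fun_prop) (by fun_prop) hY hu
  · exact PP.eq (by fun_prop) (by fun_prop)

theorem pp_WireUp {s t : α → ℕ} (hs : Poly s) (ht : Poly t) :
    PP (fun a => WireUp (s a) (t a)) := by
  unfold WireUp
  repeat' first
    | refine PP.and ?_ ?_
    | refine PP.or ?_ ?_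
    | exact PP.eq (by fun_prop) (by fun_prop)
    | exact PP.ne (by fun_prop) (by fun_prop)

theorem pp_Act {v : α → P} (hv : Poly v) : PP (fun a => Act (v a)) := by
  unfold Act
  exact PP.eq (by fun_prop) (by fun_prop)

theorem pp_Same {v w : α → P} (hv : Poly v) (hw : Poly w) :
    PP (fun a => Same (v a) (w a)) := by
  unfold Same
  exact PP.and (PP.eq (by fun_prop) (by fun_prop)) (PP.eq (by fun_prop) (by fun_prop))

theorem pp_LaneUp {B : α → ℕ} {act : α → Prop} {s t : α → ℕ} (hB : Poly B) (ha : PP act)
    (hs : Poly s) (ht : Poly t) :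
    PP (fun a => LaneUp (B a) (act a) (s a) (t a)) := by
  unfold LaneUp
  refine PP.or (pp_WireUp hs ht) (PP.and ha ?_)
  repeat' first
    | refine PP.and ?_ ?_
    | refine PP.or ?_ ?_
    | exact PP.eq (by fun_prop) (by fun_prop)

theorem pp_Pass {x : α → List Bool} {k n B : α → ℕ} {v w : α → P} (hx : Poly x) (hk : Poly k)
    (hn : Poly n) (hB : Poly B) (hv : Poly v) (hw : Poly w) :
    PP (fun a => Pass (B a) (Sched (k a) (n a) (hOf (x a))) (v a) (w a)) := by
  unfold Pass
  refine PP.ex (p := fun a u => Sched (k a) (n a) (hOf (x a)) (w a).1 (w a).2.2.1 u ∧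
    block (v a).2.2.2 ≤ u ∧ u < block (w a).2.2.2) hB ?_
  refine PP.and ?_ (PP.and ?_ ?_)
  · exact pp_Sched (α := α × ℕ) (w := fun q => x q.1) (k := fun q => k q.1) (n := fun q => n q.1)
      (i := fun q => (w q.1).1) (Y := fun q => (w q.1).2.2.1) (u := fun q => q.2)
      (by fun_prop) (by fun_prop) (by fun_prop) (by fun_prop) (by fun_prop) (by fun_prop)
  · exact PP.le (by fun_prop) (by fun_prop)
  · exact PP.lt (by fun_prop) (by fun_prop)

theorem pp_Up {x : α → List Bool} {k n B : α → ℕ} {v w : α → P} (hx : Poly x) (hk : Poly k)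
    (hn : Poly n) (hB : Poly B) (hv : Poly v) (hw : Poly w) :
    PP (fun a => Up (B a) (Sched (k a) (n a) (hOf (x a))) (v a) (w a)) := by
  unfold Up
  have h1 := pp_Same hv hw
  have h2 := pp_Act hv
  have h3 := pp_Act hw
  have h4 := pp_Pass hx hk hn hB hv hw
  have h5 : PP (fun a => (v a).1 = (w a).1) := PP.eq (by fun_prop) (by fun_prop)
  have h6 : PP (fun a => (v a).1 + 1 = (w a).1) := PP.eq (by fun_prop) (by fun_prop)
  have h7 : PP (fun a => LaneUp (B a) (Act (v a)) (v a).2.2.2 (w a).2.2.2) :=
    pp_LaneUp hB h2 (by fun_prop) (by fun_prop)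
  exact PP.or (PP.and h5 (PP.and h1 h7)) (PP.or (PP.and h5 (PP.not h1))
    (PP.and h6 (PP.and (PP.not h1) (PP.not (PP.and h2 (PP.and h3 h4))))))

theorem poly_verts {M k B : α → ℕ} (hM : Poly M) (hk : Poly k) (hB : Poly B) :
    Poly (fun a => verts (M a) (k a) (B a)) := by
  unfold verts
  refine Poly.flatMap (h := fun a i => (List.range 2).flatMap fun g =>
    (List.range (k a)).flatMap fun j => (List.range (9 * B a + 7)).map fun s => (i, g, j, s))
    (by fun_prop) ?_
  refine Poly.flatMap (h := fun (q : α × ℕ) g =>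
    (List.range (k q.1)).flatMap fun j => (List.range (9 * B q.1 + 7)).map
      fun s => (q.2, g, j, s)) (Helper96.Poly.const _) ?_
  refine Poly.flatMap (h := fun (q : (α × ℕ) × ℕ) j =>
    (List.range (9 * B q.1.1 + 7)).map fun s => (q.1.2, q.2, j, s)) (by fun_prop) ?_
  exact Helper96.Poly.map (h := fun (q : ((α × ℕ) × ℕ) × ℕ) s => (q.1.1.2, q.1.2, q.2, s))
    (by fun_prop) (by fun_prop)

attribute [local irreducible] verts
attribute [local fun_prop] poly_verts

theorem poly_mat {x : α → List Bool} {M k n B : α → ℕ} (hx : Poly x) (hM : Poly M) (hk : Poly k)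
    (hn : Poly n) (hB : Poly B) :
    Poly (fun a => mat (M a) (k a) (B a) (Sched (k a) (n a) (hOf (x a)))) := by
  classical
  unfold mat
  refine Poly.flatMap (h := fun a v => (verts (M a) (k a) (B a)).map fun w =>
    decide (v ≠ w ∧ (Up (B a) (Sched (k a) (n a) (hOf (x a))) v w ∨
      Up (B a) (Sched (k a) (n a) (hOf (x a))) w v))) (by fun_prop) ?_
  refine Helper96.Poly.map (h := fun (q : α × P) w =>
    decide (q.2 ≠ w ∧ (Up (B q.1) (Sched (k q.1) (n q.1) (hOf (x q.1))) q.2 w ∨
      Up (B q.1) (Sched (k q.1) (n q.1) (hOf (x q.1))) w q.2))) (by fun_prop) ?_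
  have h1 : PP (fun q : (α × P) × P => q.1.2 ≠ q.2) := PP.ne (by fun_prop) (by fun_prop)
  have h2 : PP (fun q : (α × P) × P =>
      Up (B q.1.1) (Sched (k q.1.1) (n q.1.1) (hOf (x q.1.1))) q.1.2 q.2) :=
    pp_Up (α := (α × P) × P) (x := fun q => x q.1.1) (k := fun q => k q.1.1)
      (n := fun q => n q.1.1) (B := fun q => B q.1.1) (v := fun q => q.1.2) (w := fun q => q.2)
      (by fun_prop) (by fun_prop) (by fun_prop) (by fun_prop) (by fun_prop) (by fun_prop)
  have h3 : PP (fun q : (α × P) × P =>
      Up (B q.1.1) (Sched (k q.1.1) (n q.1.1) (hOf (x q.1.1))) q.2 q.1.2) :=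
    pp_Up (α := (α × P) × P) (x := fun q => x q.1.1) (k := fun q => k q.1.1)
      (n := fun q => n q.1.1) (B := fun q => B q.1.1) (v := fun q => q.2) (w := fun q => q.1.2)
      (by fun_prop) (by fun_prop) (by fun_prop) (by fun_prop) (by fun_prop) (by fun_prop)
  exact (PP.and h1 (PP.or h2 h3)).poly _

end

theorem poly_red' : Poly red := by
  have h : Poly (fun w : List Bool => List.replicate (7 * kOf w) true ++ false ::
      mat (MM (kOf w) (nOf w)) (kOf w) (nOf w * kOf w) (Sched (kOf w) (nOf w) (hOf w))) := by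
    have hk : Poly (fun w : List Bool => kOf w) := poly_kOf Poly.id'
    have hn : Poly (fun w : List Bool => nOf w) := poly_nOf Poly.id'
    refine Poly.append (Poly.replicate (by fun_prop) (Helper96.Poly.const _)) (Poly.cons (Helper96.Poly.const _) ?_)
    exact poly_mat Poly.id' (poly_MM hk hn) hk hn (by fun_prop)
  exact h

end T10

/-- MODULE AT-10c. The reduction is computable in polynomial time. -/
theorem poly_red : Poly red := T10.poly_red'

end Pool.Agent.Helper35.AT
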