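import Pool.Agent.Helper35.AT.Defs
import Pool.Agent.Helper53.SC.Cnf

set_option autoImplicit false

namespace Pool.Agent.Helper35.AT

open Pool.Agent.Helper96

namespace CliqueHard

/-- the occurrences of literals -/
def occ (cls : List (List (ℕ × Bool))) : List (ℕ × (ℕ × Bool)) :=
  (List.range cls.length).flatMap fun i => (cls.getD i []).map fun l => (i, l)

/-- different clauses and not contradictory -/
def adj (v w : ℕ × (ℕ × Bool)) : Bool :=
  !decide (v.1 = w.1) && (!decide (v.2.1 = w.2.1) || decide (v.2.2 = w.2.2))

/-- the word of the graph of a list of clauses -/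
def word (cls : List (List (ℕ × Bool))) : List Bool :=
  List.replicate cls.length true ++ false ::
    (occ cls).flatMap fun v => (occ cls).map fun w => adj v w

/-- the graph of a list of clauses -/
def gr (cls : List (List (ℕ × Bool))) : SimpleGraph (Fin (occ cls).length) where
  Adj a b := adj ((occ cls).get a) ((occ cls).get b) = true
  symm := by
    constructor
    intro a b h
    simp only [adj, Bool.and_eq_true, Bool.not_eq_true', decide_eq_false_iff_not,
      Bool.or_eq_true, decide_eq_true_eq] at h ⊢
    exact ⟨fun h1 => h.1 h1.symm, h.2.imp (fun h2 h3 => h2 h3.symm) Eq.symm⟩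
  loopless := by
    constructor
    intro a h
    simp [adj] at h

theorem adj_iff (v w : ℕ × (ℕ × Bool)) :
    adj v w = true ↔ v.1 ≠ w.1 ∧ (v.2.1 = w.2.1 → v.2.2 = w.2.2) := by
  simp only [adj, Bool.and_eq_true, Bool.not_eq_true', decide_eq_false_iff_not,
      Bool.or_eq_true, decide_eq_true_eq]
  tauto

theorem mem_occ (cls : List (List (ℕ × Bool))) (i : ℕ) (l : ℕ × Bool) :
    (i, l) ∈ occ cls ↔ i < cls.length ∧ l ∈ cls.getD i [] := by
  simp only [occ, List.mem_flatMap, List.mem_range, List.mem_map, Prod.mk.injEq]
  constructor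
  · rintro ⟨j, hj, l', hl', rfl, rfl⟩
    exact ⟨hj, hl'⟩
  · rintro ⟨h1, h2⟩
    exact ⟨i, h1, l, h2, rfl, rfl⟩

theorem word_eq (cls : List (List (ℕ × Bool))) : word cls = code cls.length (gr cls) := by
  unfold word code
  congr 2
  have h1 : ∀ (l : List (ℕ × (ℕ × Bool))),
      l = (List.finRange l.length).map l.get := fun l => by
    rw [← List.ofFn_eq_map, List.ofFn_get]
  have h2 : (occ cls).flatMap (fun v => (occ cls).map fun w => adj v w) =
      ((List.finRange (occ cls).length).map (occ cls).get).flatMap
        (fun v => ((List.finRange (occ cls).length).map (occ cls).get).map fun w => adj v w) := by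
    rw [← h1 (occ cls)]
  rw [h2, List.flatMap_map]
  congr 1
  funext i
  rw [List.map_map]
  apply List.map_congr_left
  intro j _
  simp only [Function.comp_apply, gr]
  exact (Bool.decide_eq_true).symm

theorem poly_word : Poly word := by
  have h1 : Poly (fun cls : List (List (ℕ × Bool)) => occ cls) := by
    unfold occ
    exact Helper96.Poly.flatMap (h := fun (cls : List (List (ℕ × Bool))) i =>
      (cls.getD i []).map fun l => (i, l)) (by fun_prop)
      (Helper96.Poly.map (h := fun (q : List (List (ℕ × Bool)) × ℕ) (l : ℕ × Bool) => (q.2, l))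
        (f := fun q : List (List (ℕ × Bool)) × ℕ => q.1.getD q.2 [])
        (Helper96.Poly.listGetD (by fun_prop) (by fun_prop) (by fun_prop)) (by fun_prop))
  have h2 : Poly (fun q : (ℕ × (ℕ × Bool)) × (ℕ × (ℕ × Bool)) => adj q.1 q.2) := by
    unfold adj
    fun_prop
  have h3 : Poly (fun cls : List (List (ℕ × Bool)) =>
      (occ cls).flatMap fun v => (occ cls).map fun w => adj v w) := by
    refine Helper96.Poly.flatMap (h := fun (cls : List (List (ℕ × Bool))) v =>
      (occ cls).map fun w => adj v w) h1 ?_
    refine Helper96.Poly.map (h := fun (q : List (List (ℕ × Bool)) × (ℕ × (ℕ × Bool))) w =>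
      adj q.2 w) (f := fun q : List (List (ℕ × Bool)) × (ℕ × (ℕ × Bool)) => occ q.1)
      (h1.comp (by fun_prop)) ?_
    exact h2.comp (f := fun p : (List (List (ℕ × Bool)) × (ℕ × (ℕ × Bool))) × (ℕ × (ℕ × Bool)) =>
      (p.1.2, p.2)) (by fun_prop)
  unfold word
  exact Helper96.Poly.append (Helper96.Poly.replicate (by fun_prop) (by fun_prop))
    (Helper96.Poly.cons (by fun_prop) h3)

theorem sat_iff (cls : List (List (ℕ × Bool))) :
    (∃ β : ℕ → Bool, ∀ c ∈ cls, ∃ l ∈ c, β l.1 = l.2) ↔ ¬ (gr cls).CliqueFree cls.length := by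
  classical
  constructor
  · rintro ⟨β, hβ⟩ hfree
    have h1 : ∀ i : Fin cls.length, ∃ a : Fin (occ cls).length,
        ((occ cls).get a).1 = i.1 ∧ β ((occ cls).get a).2.1 = ((occ cls).get a).2.2 := by
      intro i
      obtain ⟨l, hl, h2⟩ := hβ (cls.get i) (List.get_mem cls i)
      have h3 : (i.1, l) ∈ occ cls := by
        rw [mem_occ]
        refine ⟨i.2, ?_⟩
        rw [List.getD_eq_getElem?_getD, List.getElem?_eq_getElem i.2]
        exact hl
      obtain ⟨a, ha⟩ := List.get_of_mem h3
      exact ⟨a, by rw [ha], by rw [ha]; exact h2⟩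
    choose a ha using h1
    have hinj : Function.Injective a := by
      intro i j hij
      apply Fin.ext
      rw [← (ha i).1, ← (ha j).1, hij]
    refine hfree (Finset.univ.image a) ⟨?_, ?_⟩
    · intro x hx y hy hxy
      rw [Finset.mem_coe, Finset.mem_image] at hx hy
      obtain ⟨i, _, rfl⟩ := hx
      obtain ⟨j, _, rfl⟩ := hy
      change adj _ _ = true
      rw [adj_iff]
      refine ⟨?_, ?_⟩
      · rw [(ha i).1, (ha j).1]
        intro h
        exact hxy (by rw [Fin.ext h])
      · intro h
        rw [← (ha i).2, ← (ha j).2, h]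
    · rw [Finset.card_image_of_injective _ hinj, Finset.card_univ, Fintype.card_fin]
  · intro h
    unfold SimpleGraph.CliqueFree at h
    push Not at h
    obtain ⟨s, hs⟩ := h
    have hcl : ∀ x ∈ s, ∀ y ∈ s, x ≠ y → adj ((occ cls).get x) ((occ cls).get y) = true := by
      intro x hx y hy hxy
      exact hs.isClique (Finset.mem_coe.2 hx) (Finset.mem_coe.2 hy) hxy
    have hmem : ∀ x : Fin (occ cls).length, ((occ cls).get x).1 < cls.length ∧
        ((occ cls).get x).2 ∈ cls.getD ((occ cls).get x).1 [] := by
      intro x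
      have := List.get_mem (occ cls) x
      exact (mem_occ cls _ _).1 this
    have himg : s.image (fun x => ((occ cls).get x).1) = Finset.range cls.length := by
      apply Finset.eq_of_subset_of_card_le
      · intro i hi
        obtain ⟨x, _, rfl⟩ := Finset.mem_image.1 hi
        exact Finset.mem_range.2 (hmem x).1
      · rw [Finset.card_range, Finset.card_image_of_injOn, hs.card_eq]
        intro x hx y hy hxy
        by_contra hne
        exact ((adj_iff _ _).1 (hcl x hx y hy hne)).1 hxy
    refine ⟨fun x => decide (∃ a ∈ s, ((occ cls).get a).2 = (x, true)), ?_⟩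
    intro c hc
    obtain ⟨i, hi⟩ := List.get_of_mem hc
    have h2 : i.1 ∈ s.image (fun x => ((occ cls).get x).1) := by
      rw [himg]; exact Finset.mem_range.2 i.2
    obtain ⟨a, ha, hai⟩ := Finset.mem_image.1 h2
    have hl := (hmem a).2
    have hai : ((occ cls).get a).1 = i.1 := hai
    rw [hai, List.getD_eq_getElem?_getD, List.getElem?_eq_getElem i.2] at hl
    have hl' : ((occ cls).get a).2 ∈ c := by rw [← hi]; exact hl
    refine ⟨((occ cls).get a).2, hl', ?_⟩
    by_cases hb : ((occ cls).get a).2.2 = true
    · rw [hb]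
      simp only [decide_eq_true_eq]
      exact ⟨a, ha, Prod.ext rfl hb⟩
    · have hb' : ((occ cls).get a).2.2 = false := by simpa using hb
      rw [hb']
      simp only [decide_eq_false_iff_not]
      rintro ⟨a', ha', h3⟩
      have hne : a ≠ a' := by
        rintro rfl
        rw [h3] at hb'
        exact absurd hb' (by simp)
      have h4 := ((adj_iff _ _).1 (hcl a ha a' ha' hne)).2 (by rw [h3])
      rw [hb', h3] at h4
      exact absurd h4 (by simp)

end CliqueHard

/-- MODULE AT-11. CLIQUE is NP-hard (Karp's reduction from satisfiability: the vertices are the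
occurrences of literals, adjacent if they are in different clauses and not contradictory; the size
of the clique is the number of clauses). -/
theorem clique_hard (L : Set (List Bool)) (hL : InNP L) :
    ∃ f : List Bool → List Bool, Poly f ∧
      ∀ w, ∃ (k n : ℕ) (H : SimpleGraph (Fin n)), f w = code k H ∧
        (w ∈ L ↔ ¬ H.CliqueFree k) := by
  obtain ⟨f, hf, _, h2⟩ := Pool.Agent.Helper99.SC.sl_cnf L hL
  refine ⟨fun w => CliqueHard.word (f w).2, ?_, ?_⟩
  · exact CliqueHard.poly_word.comp (Helper96.Poly.snd hf)
  · intro w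
    exact ⟨_, _, CliqueHard.gr (f w).2, CliqueHard.word_eq _, (h2 w).trans (CliqueHard.sat_iff _)⟩

end Pool.Agent.Helper35.AT
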