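import Pool.Agent.Helper35.AT.Defs

set_option autoImplicit false

namespace Pool.Agent.Helper35.AT

/-- MODULE AT-2. A strip (wire and the two end edges) needs four colours: with three colours
`c (3i) ≠ c (3i+1)` is inherited, since `c (3i+2) = c (3i+3)` is the third colour and
`c (3i+4) ≠ c (3i+2)`; at the end the edge `(9B+5, 9B+6)` gives a contradiction. -/
theorem four {γ : Type} [DecidableEq γ] (B : ℕ) (c : ℕ → γ)
    (hc : ∀ s t, t < 9 * B + 7 → LaneUp B True s t → c s ≠ c t) :
    4 ≤ ((Finset.range (9 * B + 7)).image c).card := by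
  by_contra hlt
  have hmem : ∀ s, s < 9 * B + 7 → c s ∈ (Finset.range (9 * B + 7)).image c := fun s hs =>
    Finset.mem_image.2 ⟨s, Finset.mem_range.2 hs, rfl⟩
  -- four positions with three colours
  have key : ∀ a b d e, a < 9 * B + 7 → b < 9 * B + 7 → d < 9 * B + 7 → e < 9 * B + 7 →
      c a ≠ c b → c a ≠ c d → c b ≠ c d → c a ≠ c e → c b ≠ c e → c d = c e := by
    intro a b d e ha hb hd he hab had hbd hae hbe
    by_contra hde
    have h4 : ({c a, c b, c d, c e} : Finset γ).card = 4 := by
      rw [Finset.card_insert_of_notMem (by simp [hab, had, hae]),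
        Finset.card_insert_of_notMem (by simp [hbd, hbe]),
        Finset.card_insert_of_notMem (by simp [hde]), Finset.card_singleton]
    have hsub : ({c a, c b, c d, c e} : Finset γ) ⊆ (Finset.range (9 * B + 7)).image c := by
      intro x hx
      simp only [Finset.mem_insert, Finset.mem_singleton] at hx
      rcases hx with rfl | rfl | rfl | rfl
      · exact hmem _ ha
      · exact hmem _ hb
      · exact hmem _ hd
      · exact hmem _ he
    have := Finset.card_le_card hsub
    omega
  have w : ∀ s t, t < 9 * B + 7 → WireUp s t → c s ≠ c t := fun s t ht h => hc s t ht (Or.inl h)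
  have step : ∀ i, 3 * i + 3 < 9 * B + 7 → c (3 * i) ≠ c (3 * i + 1) →
      c (3 * i + 2) = c (3 * i + 3) := by
    intro i hi h
    exact key (3 * i) (3 * i + 1) (3 * i + 2) (3 * i + 3) (by omega) (by omega) (by omega) hi h
      (w _ _ (by omega) (Or.inl rfl)) (w _ _ (by omega) (Or.inr (Or.inl ⟨rfl, by omega⟩)))
      (w _ _ (by omega) (Or.inr (Or.inr ⟨rfl, by omega⟩))) (w _ _ (by omega) (Or.inl rfl))
  have main : ∀ i, 3 * i + 1 < 9 * B + 7 → c (3 * i) ≠ c (3 * i + 1) := by
    intro i
    induction i with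
    | zero =>
      intro _
      exact hc 0 1 (by omega) (Or.inr ⟨trivial, Or.inl ⟨rfl, rfl⟩⟩)
    | succ i ih =>
      intro hi
      have h1 := step i (by omega) (ih (by omega))
      have h2 : c (3 * i + 2) ≠ c (3 * i + 4) := w _ _ (by omega) (Or.inl rfl)
      have e1 : 3 * (i + 1) = 3 * i + 3 := by ring
      have e2 : 3 * (i + 1) + 1 = 3 * i + 4 := by ring
      rw [e2, e1, ← h1]
      exact h2
  have h1 := step (3 * B + 1) (by omega) (main (3 * B + 1) (by omega))
  have e1 : 3 * (3 * B + 1) + 2 = 9 * B + 5 := by ring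
  have e2 : 3 * (3 * B + 1) + 3 = 9 * B + 6 := by ring
  rw [e1, e2] at h1
  exact hc (9 * B + 5) (9 * B + 6) (by omega) (Or.inr ⟨trivial, Or.inr ⟨rfl, rfl⟩⟩) h1

end Pool.Agent.Helper35.AT
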