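import Pool.Agent.Helper35.AT.T1
import Pool.Agent.Helper35.AT.T2

set_option autoImplicit false

namespace Pool.Agent.Helper35.AT

open Finset

/-- the colours used in a lane -/
def US (B : ℕ) (col : ℕ → ℕ → ℕ → ℕ → ℕ) (i g j : ℕ) : Finset ℕ :=
  (range (9 * B + 7)).image (col i g j)

/-- the colours used in a block of a lane -/
def UB (B : ℕ) (col : ℕ → ℕ → ℕ → ℕ → ℕ) (i g j b : ℕ) : Finset ℕ :=
  ((range (9 * B + 7)).filter fun s => block s = b).image (col i g j)

theorem UB_subset (B : ℕ) (col : ℕ → ℕ → ℕ → ℕ → ℕ) (i g j b : ℕ) :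
    UB B col i g j b ⊆ US B col i g j :=
  image_subset_image (filter_subset _ _)

theorem mem_US {B : ℕ} {col : ℕ → ℕ → ℕ → ℕ → ℕ} {i g j c : ℕ} :
    c ∈ US B col i g j ↔ ∃ s, s < 9 * B + 7 ∧ col i g j s = c := by
  simp [US]

theorem mem_UB {B : ℕ} {col : ℕ → ℕ → ℕ → ℕ → ℕ} {i g j b c : ℕ} :
    c ∈ UB B col i g j b ↔ ∃ s, s < 9 * B + 7 ∧ block s = b ∧ col i g j s = c := by
  simp [UB, and_assoc]

section

variable {M k B : ℕ} {A : ℕ → ℕ → ℕ → Prop} {col : ℕ → ℕ → ℕ → ℕ → ℕ}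

/-- a colouring with `7 k` colours -/
structure IsCol (M k B : ℕ) (A : ℕ → ℕ → ℕ → Prop) (col : ℕ → ℕ → ℕ → ℕ → ℕ) : Prop where
  lt : ∀ i g j s, i < M → g < 2 → j < k → s < 9 * B + 7 → col i g j s < 7 * k
  ne : ∀ v w : P, Good M k B v → Good M k B w → Up B A v w → v ≠ w →
    col v.1 v.2.1 v.2.2.1 v.2.2.2 ≠ col w.1 w.2.1 w.2.2.1 w.2.2.2

theorem exists_isCol (h : (TG M k B A).Colorable (7 * k)) : ∃ col, IsCol M k B A col := by
  classical
  obtain ⟨C⟩ := h
  refine ⟨fun i g j s => if h : Good M k B (i, g, j, s) then (C ⟨(i, g, j, s), h⟩).1 else 0,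
    ?_, ?_⟩
  · intro i g j s hi hg hj hs
    have h : Good M k B (i, g, j, s) := ⟨hi, hg, hj, hs⟩
    simp only [h, dif_pos]
    exact (C ⟨(i, g, j, s), h⟩).2
  · rintro ⟨i, g, j, s⟩ ⟨i', g', j', s'⟩ hv hw hup hne
    simp only [hv, hw, dif_pos]
    intro he
    have hadj : (TG M k B A).Adj ⟨(i, g, j, s), hv⟩ ⟨(i', g', j', s'), hw⟩ := by
      unfold TG
      rw [SimpleGraph.fromRel_adj]
      refine ⟨?_, Or.inl hup⟩
      intro h
      exact hne (congrArg Subtype.val h)
    exact C.valid hadj (Fin.ext he)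

theorem UB_card (h : IsCol M k B A col) {i g j b : ℕ} (hi : i < M) (hg : g < 2) (hj : j < k)
    (hb : b ≤ B) : 3 ≤ (UB B col i g j b).card := by
  refine three B b hb (col i g j) ?_
  intro s t ht hst
  have hs : s < t := by unfold WireUp at hst; omega
  refine h.ne (i, g, j, s) (i, g, j, t) ⟨hi, hg, hj, by simp only; omega⟩ ⟨hi, hg, hj, ht⟩
    (Or.inl ⟨rfl, ⟨rfl, rfl⟩, Or.inl hst⟩) ?_
  intro he
  have : s = t := by simpa using he
  omega

theorem US_card (h : IsCol M k B A col) {i j : ℕ} (hi : i < M) (hj : j < k) :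
    4 ≤ (US B col i (i % 2) j).card := by
  refine four B (col i (i % 2) j) ?_
  intro s t ht hst
  have hs : s < t := by unfold LaneUp WireUp at hst; omega
  have hg : i % 2 < 2 := Nat.mod_lt _ (by omega)
  refine h.ne (i, i % 2, j, s) (i, i % 2, j, t) ⟨hi, hg, hj, by simp only; omega⟩
    ⟨hi, hg, hj, ht⟩ (Or.inl ⟨rfl, ⟨rfl, rfl⟩, ?_⟩) ?_
  · rcases hst with hst | ⟨-, hst⟩
    · exact Or.inl hst
    · exact Or.inr ⟨rfl, hst⟩
  · intro he
    have : s = t := by simpa using he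
    omega

theorem US_card3 (h : IsCol M k B A col) {i g j : ℕ} (hi : i < M) (hg : g < 2) (hj : j < k) :
    3 ≤ (US B col i g j).card :=
  (UB_card h hi hg hj le_rfl).trans (card_le_card (UB_subset _ _ _ _ _ _))

theorem US_disj (h : IsCol M k B A col) {i g j g' j' c : ℕ} (hi : i < M) (hg : g < 2)
    (hj : j < k) (hg' : g' < 2) (hj' : j' < k) (h1 : c ∈ US B col i g j)
    (h2 : c ∈ US B col i g' j') : g = g' ∧ j = j' := by
  by_contra hne
  obtain ⟨s, hs, h1⟩ := mem_US.1 h1
  obtain ⟨s', hs', h2⟩ := mem_US.1 h2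
  refine h.ne (i, g, j, s) (i, g', j', s') ⟨hi, hg, hj, hs⟩ ⟨hi, hg', hj', hs'⟩
    (Or.inr (Or.inl ⟨rfl, hne⟩)) ?_ (h1.trans h2.symm)
  intro he
  simp only [Prod.mk.injEq] at he
  exact hne ⟨he.2.1, he.2.2.1⟩

/-- the union of the lanes of a phase -/
theorem US_count (h : IsCol M k B A col) {i : ℕ} (hi : i < M) :
    (((range 2) ×ˢ (range k)).biUnion fun q => US B col i q.1 q.2) = range (7 * k) ∧
      (∀ j < k, (US B col i (i % 2) j).card = 4) ∧
      ∀ j < k, (US B col i ((i + 1) % 2) j).card = 3 := by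
  classical
  have hdis : (((range 2) ×ˢ (range k) : Finset (ℕ × ℕ)) : Set (ℕ × ℕ)).PairwiseDisjoint
      fun q => US B col i q.1 q.2 := by
    rintro ⟨g, j⟩ hq ⟨g', j'⟩ hq' hne
    rw [Finset.mem_coe, mem_product, mem_range, mem_range] at hq hq'
    rw [Function.onFun, Finset.disjoint_left]
    intro c h1 h2
    obtain ⟨rfl, rfl⟩ := US_disj h hi hq.1 hq.2 hq'.1 hq'.2 h1 h2
    exact hne rfl
  have hsub : (((range 2) ×ˢ (range k)).biUnion fun q => US B col i q.1 q.2) ⊆
      range (7 * k) := by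
    intro c hc
    rw [mem_biUnion] at hc
    obtain ⟨⟨g, j⟩, hq, hc⟩ := hc
    rw [mem_product, mem_range, mem_range] at hq
    obtain ⟨s, hs, rfl⟩ := mem_US.1 hc
    exact mem_range.2 (h.lt _ _ _ _ hi hq.1 hq.2 hs)
  have hcard : (((range 2) ×ˢ (range k)).biUnion fun q => US B col i q.1 q.2).card =
      ∑ j ∈ range k, ((US B col i (i % 2) j).card + (US B col i ((i + 1) % 2) j).card) := by
    rw [card_biUnion hdis, sum_product_right]
    refine sum_congr rfl fun j _ => ?_
    rw [sum_range_succ, sum_range_one]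
    rcases Nat.mod_two_eq_zero_or_one i with h0 | h0
    · have h1 : (i + 1) % 2 = 1 := by omega
      rw [h0, h1]
    · have h1 : (i + 1) % 2 = 0 := by omega
      rw [h0, h1]
      exact add_comm _ _
  have hle : (((range 2) ×ˢ (range k)).biUnion fun q => US B col i q.1 q.2).card ≤ 7 * k := by
    have := card_le_card hsub
    rwa [card_range] at this
  have hge : ∀ j ∈ range k,
      7 ≤ (US B col i (i % 2) j).card + (US B col i ((i + 1) % 2) j).card := by
    intro j hj
    have h1 := US_card h hi (mem_range.1 hj)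
    have h2 := US_card3 h hi (Nat.mod_lt (i + 1) (show 0 < 2 by omega)) (mem_range.1 hj)
    omega
  have hsum : ∑ j ∈ range k, 7 =
      ∑ j ∈ range k, ((US B col i (i % 2) j).card + (US B col i ((i + 1) % 2) j).card) := by
    refine le_antisymm (sum_le_sum hge) ?_
    rw [← hcard, sum_const, card_range, smul_eq_mul, mul_comm]
    exact hle
  have heq := (sum_eq_sum_iff_of_le hge).1 hsum
  refine ⟨?_, ?_, ?_⟩
  · refine eq_of_subset_of_card_le hsub ?_
    rw [hcard, ← hsum, sum_const, card_range, card_range, smul_eq_mul, mul_comm]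
  · intro j hj
    have h1 := US_card h hi hj
    have h2 := US_card3 h hi (Nat.mod_lt (i + 1) (show 0 < 2 by omega)) hj
    have h3 := heq j (mem_range.2 hj)
    omega
  · intro j hj
    have h1 := US_card h hi hj
    have h2 := US_card3 h hi (Nat.mod_lt (i + 1) (show 0 < 2 by omega)) hj
    have h3 := heq j (mem_range.2 hj)
    omega

theorem exists_lane (h : IsCol M k B A col) {i c : ℕ} (hi : i < M) (hc : c < 7 * k) :
    ∃ g j, g < 2 ∧ j < k ∧ c ∈ US B col i g j := by
  classical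
  have := (US_count h hi).1
  have hc' : c ∈ range (7 * k) := mem_range.2 hc
  rw [← this, mem_biUnion] at hc'
  obtain ⟨⟨g, j⟩, hq, hc'⟩ := hc'
  rw [mem_product, mem_range, mem_range] at hq
  exact ⟨g, j, hq.1, hq.2, hc'⟩

theorem US_lt (h : IsCol M k B A col) {i g j c : ℕ} (hi : i < M) (hg : g < 2) (hj : j < k)
    (hc : c ∈ US B col i g j) : c < 7 * k := by
  obtain ⟨s, hs, rfl⟩ := mem_US.1 hc
  exact h.lt _ _ _ _ hi hg hj hs

/-- a colour which changes the lane -/
theorem change (h : IsCol M k B A col) {i g j g' j' s s' : ℕ} (hi : i + 1 < M) (hg : g < 2)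
    (hj : j < k) (hg' : g' < 2) (hj' : j' < k) (hs : s < 9 * B + 7) (hs' : s' < 9 * B + 7)
    (hne : ¬ (g = g' ∧ j = j')) (he : col i g j s = col (i + 1) g' j' s') :
    g = i % 2 ∧ g' = (i + 1) % 2 ∧ ∃ u, u < B ∧ A (i + 1) j' u ∧ block s ≤ u ∧ u < block s' := by
  by_contra hcon
  refine h.ne (i, g, j, s) (i + 1, g', j', s') ⟨by simp only; omega, hg, hj, hs⟩
    ⟨hi, hg', hj', hs'⟩ (Or.inr (Or.inr ⟨rfl, hne, ?_⟩)) ?_ he
  · rintro ⟨h1, h2, h3⟩
    exact hcon ⟨h1, h2, h3⟩
  · intro he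
    simp only [Prod.mk.injEq] at he
    omega

theorem idle_sub (h : IsCol M k B A col) {i j : ℕ} (hi : i + 1 < M) (hj : j < k) :
    US B col i ((i + 1) % 2) j ⊆ US B col (i + 1) ((i + 1) % 2) j := by
  intro c hc
  have hg : (i + 1) % 2 < 2 := Nat.mod_lt _ (by omega)
  obtain ⟨g', j', hg', hj', hc'⟩ := exists_lane h hi (US_lt h (by omega) hg hj hc)
  by_cases hne : (i + 1) % 2 = g' ∧ j = j'
  · obtain ⟨rfl, rfl⟩ := hne
    exact hc'
  · obtain ⟨s, hs, h1⟩ := mem_US.1 hc
    obtain ⟨s', hs', h2⟩ := mem_US.1 hc'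
    have := (change h hi hg hj hg' hj' hs hs' hne (h1.trans h2.symm)).1
    omega

theorem last_sub (h : IsCol M k B A col) {i j : ℕ} (hi : i + 1 < M) (hj : j < k) :
    UB B col i (i % 2) j B ⊆ US B col (i + 1) (i % 2) j := by
  intro c hc
  have hg : i % 2 < 2 := Nat.mod_lt _ (by omega)
  obtain ⟨g', j', hg', hj', hc'⟩ := exists_lane h hi
    (US_lt h (by omega) hg hj (UB_subset _ _ _ _ _ _ hc))
  by_cases hne : i % 2 = g' ∧ j = j'
  · obtain ⟨rfl, rfl⟩ := hne
    exact hc'
  · obtain ⟨s, hs, hb, h1⟩ := mem_UB.1 hc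
    obtain ⟨s', hs', h2⟩ := mem_US.1 hc'
    obtain ⟨-, -, u, hu, -, h3, -⟩ := change h hi hg hj hg' hj' hs hs' hne (h1.trans h2.symm)
    omega

theorem last_eq (h : IsCol M k B A col) {i j : ℕ} (hi : i + 1 < M) (hj : j < k) :
    UB B col i (i % 2) j B = US B col (i + 1) (i % 2) j := by
  refine eq_of_subset_of_card_le (last_sub h hi hj) ?_
  have h1 := (US_count h hi).2.2 j hj
  have h2 : (i + 1 + 1) % 2 = i % 2 := by omega
  rw [h2] at h1
  rw [h1]
  exact UB_card h (by omega) (Nat.mod_lt _ (by omega)) hj le_rfl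

/-- the colour which leaves -/
theorem exists_leave (h : IsCol M k B A col) {i j : ℕ} (hi : i + 1 < M) (hj : j < k) :
    ∃ c, US B col i (i % 2) j \ US B col (i + 1) (i % 2) j = {c} := by
  rw [← card_eq_one, card_sdiff_of_subset, (US_count h (by omega)).2.1 j hj]
  · have h1 := (US_count h hi).2.2 j hj
    have h2 : (i + 1 + 1) % 2 = i % 2 := by omega
    rw [h2] at h1
    rw [h1]
  · rw [← last_eq h hi hj]
    exact UB_subset _ _ _ _ _ _

/-- the colour which enters -/
theorem exists_enter (h : IsCol M k B A col) {i j : ℕ} (hi : i + 1 < M) (hj : j < k) :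
    ∃ c, US B col (i + 1) ((i + 1) % 2) j \ US B col i ((i + 1) % 2) j = {c} := by
  rw [← card_eq_one, card_sdiff_of_subset (idle_sub h hi hj), (US_count h hi).2.1 j hj,
    (US_count h (by omega)).2.2 j hj]

end

/-- MODULE AT-4. Soundness: a colouring with `7 k` colours gives a run of the timers. -/
theorem sound {M k B : ℕ} {A : ℕ → ℕ → ℕ → Prop} (h : (TG M k B A).Colorable (7 * k)) :
    Game k B M A := by
  classical
  obtain ⟨col, h⟩ := exists_isCol h
  -- the leaving and the entering colours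
  have hL : ∀ i j, ∃ c, i + 1 < M → j < k →
      US B col i (i % 2) j \ US B col (i + 1) (i % 2) j = {c} := by
    intro i j
    by_cases hi : i + 1 < M
    · by_cases hj : j < k
      · obtain ⟨c, hc⟩ := exists_leave h hi hj
        exact ⟨c, fun _ _ => hc⟩
      · exact ⟨0, fun _ h => absurd h hj⟩
    · exact ⟨0, fun h => absurd h hi⟩
  choose L hL using hL
  have hE : ∀ i j, ∃ c, i + 1 < M → j < k →
      US B col (i + 1) ((i + 1) % 2) j \ US B col i ((i + 1) % 2) j = {c} := by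
    intro i j
    by_cases hi : i + 1 < M
    · by_cases hj : j < k
      · obtain ⟨c, hc⟩ := exists_enter h hi hj
        exact ⟨c, fun _ _ => hc⟩
      · exact ⟨0, fun _ h => absurd h hj⟩
    · exact ⟨0, fun h => absurd h hi⟩
  choose E hE using hE
  have hg2 : ∀ i : ℕ, i % 2 < 2 := fun i => Nat.mod_lt _ (by omega)
  have hL1 : ∀ i j, i + 1 < M → j < k → L i j ∈ US B col i (i % 2) j ∧
      L i j ∉ US B col (i + 1) (i % 2) j ∧
      ∀ c, c ∈ US B col i (i % 2) j → c ∉ US B col (i + 1) (i % 2) j → c = L i j := by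
    intro i j hi hj
    have h1 := hL i j hi hj
    have h2 : L i j ∈ US B col i (i % 2) j \ US B col (i + 1) (i % 2) j := by
      rw [h1]; exact mem_singleton_self _
    rw [mem_sdiff] at h2
    refine ⟨h2.1, h2.2, fun c h3 h4 => ?_⟩
    have h5 : c ∈ US B col i (i % 2) j \ US B col (i + 1) (i % 2) j := mem_sdiff.2 ⟨h3, h4⟩
    rw [h1] at h5
    exact mem_singleton.1 h5
  have hE1 : ∀ i j, i + 1 < M → j < k → E i j ∈ US B col (i + 1) ((i + 1) % 2) j ∧
      E i j ∉ US B col i ((i + 1) % 2) j := by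
    intro i j hi hj
    have h1 := hE i j hi hj
    have h2 : E i j ∈ US B col (i + 1) ((i + 1) % 2) j \ US B col i ((i + 1) % 2) j := by
      rw [h1]; exact mem_singleton_self _
    exact mem_sdiff.1 h2
  -- the entering colours left another lane
  have hEL : ∀ i (Y : Fin k), i + 1 < M → ∃ X : Fin k, E i Y = L i X := by
    intro i Y hi
    obtain ⟨h1, h2⟩ := hE1 i Y hi Y.2
    obtain ⟨g, j, hg, hj, h3⟩ := exists_lane h (show i < M by omega)
      (US_lt h hi (hg2 _) Y.2 h1)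
    have hgi : g = i % 2 := by
      by_contra hgi
      have hg' : g = (i + 1) % 2 := by omega
      subst hg'
      obtain ⟨-, rfl⟩ := US_disj h hi (hg2 _) hj (hg2 _) Y.2 (idle_sub h hi hj h3) h1
      exact h2 h3
    subst hgi
    refine ⟨⟨j, hj⟩, (hL1 i j hi hj).2.2 _ h3 ?_⟩
    intro h4
    have := (US_disj h hi (hg2 _) hj (hg2 _) Y.2 h4 h1).1
    omega
  -- timers
  let F : ℕ → ℕ → Finset ℕ := fun i X =>
    (range (9 * B + 7)).filter fun s => col i (i % 2) X s = L i X
  have hFm : ∀ i X s, s ∈ F i X ↔ s < 9 * B + 7 ∧ col i (i % 2) X s = L i X := by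
    intro i X s
    simp only [F, mem_filter, mem_range]
  have hFne : ∀ i X, i + 1 < M → X < k → (F i X).Nonempty := by
    intro i X hi hX
    obtain ⟨s, hs, h1⟩ := mem_US.1 (hL1 i X hi hX).1
    exact ⟨s, (hFm _ _ _).2 ⟨hs, h1⟩⟩
  have hblock : ∀ s, s < 9 * B + 7 → block s ≤ B := by
    intro s hs
    unfold block
    omega
  refine ⟨fun i X => (F i X).sup block, ?_, ?_⟩
  · intro i hi X
    obtain ⟨s, hs, h1⟩ := exists_mem_eq_sup (F i X) (hFne i X hi X.2) block
    obtain ⟨hs1, hs2⟩ := (hFm _ _ _).1 hs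
    change (F i X).sup block < B
    rw [h1]
    refine lt_of_le_of_ne (hblock s hs1) ?_
    intro hb
    refine (hL1 i X hi X.2).2.1 ?_
    rw [← last_eq h hi X.2]
    exact mem_UB.2 ⟨s, hs1, hb, hs2⟩
  · intro i hi
    have hi1 : i + 1 < M := by omega
    have hX : ∀ Y : Fin k, ∃ X : Fin k, E i Y = L i X := fun Y => hEL i Y hi1
    choose π hπ using hX
    have hinj : Function.Injective π := by
      intro Y Y' hYY
      have h1 : E i Y = E i Y' := by rw [hπ, hπ, hYY]
      have h2 := (hE1 i Y hi1 Y.2).1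
      rw [h1] at h2
      exact Fin.ext (US_disj h hi1 (hg2 _) Y.2 (hg2 _) Y'.2 h2 (hE1 i Y' hi1 Y'.2).1).2
    refine ⟨Equiv.ofBijective π (Finite.injective_iff_bijective.1 hinj), ?_⟩
    intro Y
    change ∃ u, A (i + 1) Y u ∧ (F i (π Y)).sup block ≤ u ∧ u ≤ (F (i + 1) Y).sup block
    obtain ⟨s, hs, h1⟩ := exists_mem_eq_sup (F i (π Y)) (hFne i _ hi1 (π Y).2) block
    obtain ⟨hs1, hs2⟩ := (hFm _ _ _).1 hs
    -- the first block of the entering colour
    let G : Finset ℕ := (range (9 * B + 7)).filter fun s => col (i + 1) ((i + 1) % 2) Y s = E i Y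
    have hGm : ∀ s, s ∈ G ↔ s < 9 * B + 7 ∧ col (i + 1) ((i + 1) % 2) Y s = E i Y := by
      intro s
      simp only [G, mem_filter, mem_range]
    have hGne : G.Nonempty := by
      obtain ⟨s, hs, h1⟩ := mem_US.1 (hE1 i Y hi1 Y.2).1
      exact ⟨s, (hGm _).2 ⟨hs, h1⟩⟩
    obtain ⟨s', hs', hmin⟩ := exists_min_image G block hGne
    obtain ⟨hs'1, hs'2⟩ := (hGm _).1 hs'
    have hne : ¬ (i % 2 = (i + 1) % 2 ∧ (π Y).1 = Y.1) := by omega
    obtain ⟨-, -, u, hu, hA, hu1, hu2⟩ := change h hi1 (hg2 _) (π Y).2 (hg2 _) Y.2 hs1 hs'1 hne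
      (hs2.trans ((hπ Y).symm.trans hs'2.symm))
    refine ⟨u, hA, ?_, ?_⟩
    · rw [h1]
      exact hu1
    · obtain ⟨hl1, hl2, hl3⟩ := hL1 (i + 1) Y (by omega) Y.2
      by_cases hEq : L (i + 1) Y = E i Y
      · have h2 : s' ∈ F (i + 1) Y := (hFm _ _ _).2 ⟨hs'1, hs'2.trans hEq.symm⟩
        exact hu2.le.trans (le_sup (f := block) h2)
      · -- all the three other colours are used in block `u`
        have hEu : E i Y ∉ UB B col (i + 1) ((i + 1) % 2) Y u := by
          intro hmem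
          obtain ⟨t, ht, hb, h2⟩ := mem_UB.1 hmem
          have := hmin t ((hGm _).2 ⟨ht, h2⟩)
          omega
        have hsub : UB B col (i + 1) ((i + 1) % 2) Y u ⊆
            (US B col (i + 1) ((i + 1) % 2) Y).erase (E i Y) := by
          intro c hc
          refine mem_erase.2 ⟨?_, UB_subset _ _ _ _ _ _ hc⟩
          rintro rfl
          exact hEu hc
        have hcard : ((US B col (i + 1) ((i + 1) % 2) Y).erase (E i Y)).card = 3 := by
          rw [card_erase_of_mem (hE1 i Y hi1 Y.2).1, (US_count h hi1).2.1 Y Y.2]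
        have heq := eq_of_subset_of_card_le hsub (by
          rw [hcard]
          exact UB_card h hi1 (hg2 _) Y.2 hu.le)
        have h3 : L (i + 1) Y ∈ UB B col (i + 1) ((i + 1) % 2) Y u := by
          rw [heq]
          exact mem_erase.2 ⟨hEq, hl1⟩
        obtain ⟨t, ht, hb, h4⟩ := mem_UB.1 h3
        have h5 : t ∈ F (i + 1) Y := (hFm _ _ _).2 ⟨ht, h4⟩
        have h6 : block t ≤ (F (i + 1) Y).sup block := le_sup (f := block) h5
        omega

end Pool.Agent.Helper35.AT
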