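import Pool.Agent.Helper35.AT.Defs

set_option autoImplicit false

namespace Pool.Agent.Helper35.AT

/-- The colours: three for each of the `2 k` lanes, and `k` tokens. -/
abbrev h28_Col (k : ℕ) : Type := ((Fin 2 × Fin k) × Fin 3) ⊕ Fin k

/-- The exchange of the role two of the active lanes and the tokens. -/
def h28_tau {k : ℕ} (g : Fin 2) (s : Equiv.Perm (Fin k)) : h28_Col k → h28_Col k
  | Sum.inl x => if x.1.1 = g ∧ x.2 = 2 then Sum.inr (s x.1.2) else Sum.inl x
  | Sum.inr a => Sum.inl ((g, s.symm a), 2)

theorem h28_tau_inv {k : ℕ} (g : Fin 2) (s : Equiv.Perm (Fin k)) :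
    Function.Involutive (h28_tau g s) := by
  intro c
  rcases c with ⟨⟨g', j⟩, r⟩ | a
  · by_cases h : g' = g ∧ r = 2
    · obtain ⟨rfl, rfl⟩ := h
      simp [h28_tau]
    · simp [h28_tau, h]
  · simp [h28_tau]

/-- The names of the colours in phase `i`. -/
def h28_Phi {k : ℕ} (σ : ℕ → Equiv.Perm (Fin k)) : ℕ → Equiv.Perm (h28_Col k)
  | 0 => 1
  | i + 1 => h28_Phi σ i * (h28_tau_inv ⟨i % 2, Nat.mod_lt _ (by norm_num)⟩ (σ i)).toPerm

/-- The role of a position; three stands for the token. -/
def h28_role (act : Bool) (t s : ℕ) : ℕ :=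
  if act then
    (if block s ≤ t then (s % 3 + 2 * (s / 3)) % 3
    else if s % 3 = 2 then 0 else if (s / 3 + t + 1) % 2 = 0 then 3 else 1)
  else (if s % 3 = 2 then 0 else 1 + (s / 3) % 2)

theorem h28_role_lt (act : Bool) (t s : ℕ) : h28_role act t s < 4 := by
  unfold h28_role block
  split_ifs <;> omega

theorem h28_role_three {act : Bool} {t s : ℕ} (h : h28_role act t s = 3) :
    act = true ∧ t < block s := by
  unfold h28_role at h
  unfold block at *
  split_ifs at h with h1 h2 h3 h4 <;> try omega
  exact ⟨h1, by omega⟩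

theorem h28_role_two {t s : ℕ} (h : h28_role true t s = 2) : block s ≤ t := by
  unfold h28_role at h
  by_contra hc
  rw [if_pos rfl, if_neg hc] at h
  split_ifs at h <;> omega

/-- Adjacent positions of a lane have different roles. -/
theorem h28_role_ne {B t s s' : ℕ} (act : Bool) (ht : t < B)
    (h : LaneUp B (act = true) s s') : h28_role act t s ≠ h28_role act t s' := by
  unfold LaneUp WireUp at h
  unfold h28_role
  cases act
  · simp only [Bool.false_eq_true, if_false, false_and, or_false] at h ⊢
    split_ifs <;> omega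
  · simp only [if_true, true_and] at h ⊢
    by_cases b1 : block s ≤ t
    · by_cases b2 : block s' ≤ t
      · rw [if_pos b1, if_pos b2]
        unfold block at b1 b2
        rcases h with (h | ⟨h, h'⟩ | ⟨h, h'⟩) | (⟨h, h'⟩ | ⟨h, h'⟩)
        · have : s % 3 = 0 ∨ s % 3 = 1 ∨ s % 3 = 2 := by omega
          rcases this with h0 | h0 | h0
          · have e1 : s' / 3 = s / 3 := by omega
            have e2 : s' % 3 = 2 := by omega
            rw [e1, e2, h0]; omega
          · have e1 : s' / 3 = s / 3 + 1 := by omega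
            have e2 : s' % 3 = 0 := by omega
            rw [e1, e2, h0]; omega
          · have e1 : s' / 3 = s / 3 + 1 := by omega
            have e2 : s' % 3 = 1 := by omega
            rw [e1, e2, h0]; omega
        · have e1 : s' / 3 = s / 3 := by omega
          have e2 : s' % 3 = 2 := by omega
          rw [e1, e2, h']; omega
        · have e1 : s' / 3 = s / 3 + 1 := by omega
          have e2 : s' % 3 = 0 := by omega
          rw [e1, e2, h']; omega
        · subst h h'; omega
        · subst h h'; omega
      · rw [if_pos b1, if_neg b2]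
        unfold block at b1 b2
        rcases h with (h | ⟨h, h'⟩ | ⟨h, h'⟩) | (⟨h, h'⟩ | ⟨h, h'⟩)
        · have : s = 9 * t + 6 ∨ s = 9 * t + 7 := by omega
          rcases this with h0 | h0
          · subst h0 h
            split_ifs <;> omega
          · subst h0 h
            split_ifs <;> omega
        · have : s = 9 * t + 7 := by omega
          subst this h
          split_ifs <;> omega
        · have : s = 9 * t + 6 := by omega
          subst this h
          split_ifs <;> omega
        · subst h h'; omega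
        · subst h h'; omega
    · have b2 : ¬ block s' ≤ t := by
        unfold block at b1 ⊢
        omega
      rw [if_neg b1, if_neg b2]
      unfold block at b1 b2
      rcases h with (h | ⟨h, h'⟩ | ⟨h, h'⟩) | (⟨h, h'⟩ | ⟨h, h'⟩)
      · subst h
        split_ifs <;> omega
      · subst h
        split_ifs <;> omega
      · subst h
        split_ifs <;> omega
      · subst h h'
        split_ifs <;> omega
      · subst h h'
        split_ifs <;> omega

theorem h28_role_ne_inactive {B s s' : ℕ} (t : ℕ)
    (h : LaneUp B (false = true) s s') : h28_role false t s ≠ h28_role false t s' := by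
  unfold LaneUp WireUp at h
  unfold h28_role
  simp only [Bool.false_eq_true, if_false, false_and, or_false] at h ⊢
  split_ifs <;> omega

/-- The name of a vertex. -/
def h28_name {k : ℕ} (x : Fin k → ℕ) (σ : ℕ → Equiv.Perm (Fin k)) (i g : ℕ) (hg : g < 2)
    (j : Fin k) (s : ℕ) : h28_Col k :=
  if h : h28_role (decide (g = i % 2)) (x (σ i j)) s < 3 then
    Sum.inl ((⟨g, hg⟩, j), ⟨h28_role (decide (g = i % 2)) (x (σ i j)) s, h⟩)
  else Sum.inr (σ i j)

theorem h28_name_ne_lane {k : ℕ} (x : Fin k → ℕ) (σ : ℕ → Equiv.Perm (Fin k)) (i g g' : ℕ)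
    (hg : g < 2) (hg' : g' < 2) (j j' : Fin k) (s s' : ℕ) (h : ¬ (g = g' ∧ j = j')) :
    h28_name x σ i g hg j s ≠ h28_name x σ i g' hg' j' s' := by
  unfold h28_name
  split_ifs with h1 h2 h2
  · intro he
    rw [Sum.inl.injEq, Prod.mk.injEq, Prod.mk.injEq, Fin.mk.injEq] at he
    exact h he.1
  · simp
  · simp
  · intro he
    rw [Sum.inr.injEq] at he
    have hj := (σ i).injective he
    have e1 : h28_role (decide (g = i % 2)) (x (σ i j)) s = 3 := by
      have := h28_role_lt (decide (g = i % 2)) (x (σ i j)) s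
      omega
    have e2 : h28_role (decide (g' = i % 2)) (x (σ i j')) s' = 3 := by
      have := h28_role_lt (decide (g' = i % 2)) (x (σ i j')) s'
      omega
    have f1 := (h28_role_three e1).1
    have f2 := (h28_role_three e2).1
    rw [decide_eq_true_iff] at f1 f2
    exact h ⟨f1.trans f2.symm, hj⟩

/-- MODULE AT-5. Completeness: resting tokens give a colouring with `7 k` colours. -/
theorem complete {M k B : ℕ} {A : ℕ → ℕ → ℕ → Prop} (x : Fin k → ℕ) (hx : ∀ a, x a < B)
    (σ : ℕ → Equiv.Perm (Fin k))
    (h : ∀ i, 1 ≤ i → i < M → ∀ Y : Fin k, A i Y.1 (x (σ i Y))) :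
    (TG M k B A).Colorable (7 * k) := by
  let col : V M k B → h28_Col k := fun v =>
    h28_Phi σ v.1.1 (h28_name x σ v.1.1 v.1.2.1 v.2.2.1 ⟨v.1.2.2.1, v.2.2.2.1⟩ v.1.2.2.2)
  have key : ∀ v w : V M k B, Up B A v.1 w.1 → col v ≠ col w := by
    rintro ⟨⟨i, g, j, s⟩, hv⟩ ⟨⟨i', g', j', s'⟩, hw⟩ hup
    obtain ⟨hi, hg, hj, hs⟩ := hv
    obtain ⟨hi', hg', hj', hs'⟩ := hw
    simp only at hi hg hj hs hi' hg' hj' hs'
    simp only [Up, Same, Act] at hup
    simp only [col]
    rcases hup with ⟨h1, ⟨h2, h3⟩, h4⟩ | ⟨h1, h2⟩ | ⟨h1, h2, h3⟩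
    · subst h1 h2 h3
      intro he
      have he' := (h28_Phi σ i).injective he
      have hne := h28_role_ne (B := B) (t := x (σ i ⟨j, hj⟩)) (s := s) (s' := s')
        (decide (g = i % 2)) (hx _) (by rw [decide_eq_true_iff]; exact h4)
      unfold h28_name at he'
      split_ifs at he' with k1 k2 k2
      · rw [Sum.inl.injEq, Prod.mk.injEq, Fin.mk.injEq] at he'
        exact hne he'.2
      · have l1 := h28_role_lt (decide (g = i % 2)) (x (σ i ⟨j, hj⟩)) s
        have l2 := h28_role_lt (decide (g = i % 2)) (x (σ i ⟨j, hj⟩)) s'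
        omega
    · subst h1
      intro he
      have he' := (h28_Phi σ i).injective he
      refine h28_name_ne_lane x σ i g g' hg hg' _ _ s s' ?_ he'
      rw [Fin.mk.injEq]
      exact h2
    · subst h1
      intro he
      have he' := (h28_Phi σ i).injective (a₂ := h28_tau ⟨i % 2, Nat.mod_lt _ (by norm_num)⟩ (σ i)
        (h28_name x σ (i + 1) g' hg' ⟨j', hj'⟩ s')) he
      unfold h28_name at he'
      by_cases k2 : h28_role (decide (g' = (i + 1) % 2)) (x (σ (i + 1) ⟨j', hj'⟩)) s' < 3
      · rw [dif_pos k2] at he'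
        simp only [h28_tau] at he'
        by_cases k3 : (⟨g', hg'⟩ : Fin 2) = ⟨i % 2, Nat.mod_lt _ (by norm_num)⟩ ∧
            (⟨h28_role (decide (g' = (i + 1) % 2)) (x (σ (i + 1) ⟨j', hj'⟩)) s', k2⟩ : Fin 3) = 2
        · rw [if_pos k3] at he'
          split_ifs at he' with k1
          rw [Sum.inr.injEq] at he'
          have e1 : h28_role (decide (g = i % 2)) (x (σ i ⟨j, hj⟩)) s = 3 := by
            have := h28_role_lt (decide (g = i % 2)) (x (σ i ⟨j, hj⟩)) s
            omega
          have f1 := (h28_role_three e1).1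
          rw [decide_eq_true_iff] at f1
          have f2 := (σ i).injective he'
          rw [Fin.mk.injEq] at f2
          have f3 := k3.1
          rw [Fin.mk.injEq] at f3
          exact h2 ⟨f1.trans f3.symm, f2⟩
        · rw [if_neg k3] at he'
          split_ifs at he' with k1
          rw [Sum.inl.injEq, Prod.mk.injEq, Prod.mk.injEq, Fin.mk.injEq, Fin.mk.injEq] at he'
          exact h2 he'.1
      · rw [dif_neg k2] at he'
        simp only [h28_tau] at he'
        split_ifs at he' with k1
        rw [Sum.inl.injEq, Prod.mk.injEq, Prod.mk.injEq, Fin.mk.injEq] at he'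
        obtain ⟨⟨p1, p2⟩, p3⟩ := he'
        have p3' : h28_role (decide (g = i % 2)) (x (σ i ⟨j, hj⟩)) s = 2 := by
          have := congrArg Fin.val p3
          simpa using this
        have e1 : h28_role (decide (g' = (i + 1) % 2)) (x (σ (i + 1) ⟨j', hj'⟩)) s' = 3 := by
          have := h28_role_lt (decide (g' = (i + 1) % 2)) (x (σ (i + 1) ⟨j', hj'⟩)) s'
          omega
        obtain ⟨f1, f2⟩ := h28_role_three e1
        rw [decide_eq_true_iff] at f1
        have p4 : σ i ⟨j, hj⟩ = σ (i + 1) ⟨j', hj'⟩ := by
          rw [p2, Equiv.apply_symm_apply]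
        rw [decide_eq_true p1] at p3'
        have f3 := h28_role_two p3'
        apply h3
        refine ⟨p1, f1, x (σ i ⟨j, hj⟩), hx _, ?_, f3, ?_⟩
        · rw [p4]
          exact h (i + 1) (by omega) hi' ⟨j', hj'⟩
        · rw [p4]
          exact f2
  have hc : (TG M k B A).Coloring (h28_Col k) := by
    refine SimpleGraph.Coloring.mk col ?_
    intro v w hvw
    unfold TG at hvw
    rw [SimpleGraph.fromRel_adj] at hvw
    rcases hvw.2 with h1 | h1
    · exact key v w h1
    · exact (key w v h1).symm
  have hcard : Fintype.card (h28_Col k) = 7 * k := by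
    simp [h28_Col]
    ring
  rw [← hcard]
  exact hc.colorable

end Pool.Agent.Helper35.AT
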