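import Pool.Agent.Helper35.AT.Defs

set_option autoImplicit false

namespace Pool.Agent.Helper35.AT

namespace H93

/-- A step of the timers between two phases with the same sum. -/
private theorem step_eq {k : ℕ} {A : ℕ → ℕ → ℕ → Prop} {f : ℕ → Fin k → ℕ} {i : ℕ}
    (hs : ∑ X, f i X = ∑ X, f (i + 1) X)
    (h : ∃ π : Equiv.Perm (Fin k), ∀ Y : Fin k,
      ∃ u, A (i + 1) Y.1 u ∧ f i (π Y) ≤ u ∧ u ≤ f (i + 1) Y) :
    ∃ π : Equiv.Perm (Fin k), ∀ Y : Fin k, A (i + 1) Y.1 (f (i + 1) Y) ∧
      f (i + 1) Y = f i (π Y) := by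
  obtain ⟨π, hπ⟩ := h
  refine ⟨π, ?_⟩
  have h1 : ∑ Y, f i (π Y) = ∑ Y, f (i + 1) Y := by
    rw [← hs]
    exact Equiv.sum_comp π (f i)
  have hle : ∀ Y ∈ (Finset.univ : Finset (Fin k)), f i (π Y) ≤ f (i + 1) Y := by
    intro Y _
    obtain ⟨u, -, h2, h3⟩ := hπ Y
    exact h2.trans h3
  have heq := (Finset.sum_eq_sum_iff_of_le hle).1 h1
  intro Y
  obtain ⟨u, hu, h2, h3⟩ := hπ Y
  have h4 := heq Y (Finset.mem_univ _)
  have h5 : u = f (i + 1) Y := by omega
  rw [h5] at hu
  exact ⟨hu, h4.symm⟩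

private theorem sum_le_succ {k : ℕ} {A : ℕ → ℕ → ℕ → Prop} {f : ℕ → Fin k → ℕ} {i : ℕ}
    (h : ∃ π : Equiv.Perm (Fin k), ∀ Y : Fin k,
      ∃ u, A (i + 1) Y.1 u ∧ f i (π Y) ≤ u ∧ u ≤ f (i + 1) Y) :
    ∑ X, f i X ≤ ∑ X, f (i + 1) X := by
  obtain ⟨π, hπ⟩ := h
  rw [← Equiv.sum_comp π (f i)]
  refine Finset.sum_le_sum fun Y _ => ?_
  obtain ⟨u, -, h2, h3⟩ := hπ Y
  exact h2.trans h3

/-- A bounded nondecreasing sequence is constant on one of the rounds. -/
private theorem exists_const (S : ℕ → ℕ) (T N : ℕ) (hmono : ∀ i, i < T * (N + 1) → S i ≤ S (i + 1))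
    (hb : S (T * (N + 1)) ≤ N) : ∃ r ≤ N, ∀ i, T * r ≤ i → i < T * (r + 1) → S i = S (i + 1) := by
  have hm : ∀ a b, a ≤ b → b ≤ T * (N + 1) → S a ≤ S b := by
    intro a b hab hb'
    induction b, hab using Nat.le_induction with
    | base => exact le_rfl
    | succ b hab ih => exact (ih (by omega)).trans (hmono b (by omega))
  by_contra hcon
  push Not at hcon
  have hlt : ∀ r ≤ N, S (T * r) < S (T * (r + 1)) := by
    intro r hr
    obtain ⟨i, h1, h2, h3⟩ := hcon r hr
    have hT : T * (r + 1) ≤ T * (N + 1) := Nat.mul_le_mul_left _ (by omega)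
    have a1 := hm (T * r) i h1 (by omega)
    have a2 := hmono i (by omega)
    have a3 := hm (i + 1) (T * (r + 1)) (by omega) hT
    omega
  have hge : ∀ r ≤ N + 1, r ≤ S (T * r) := by
    intro r
    induction r with
    | zero => intro _; exact Nat.zero_le _
    | succ r ih =>
      intro hr
      have b1 := ih (by omega)
      have b2 := hlt r (by omega)
      omega
  have := hge (N + 1) le_rfl
  omega

private theorem dec_e {k n j l a b : ℕ} (hl : l < k) (ha : a < n) (hb : b < n) :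
    (((j * k + l) * n + a) * n + b) / n / n / k = j ∧
    (((j * k + l) * n + a) * n + b) / n / n % k = l ∧
    (((j * k + l) * n + a) * n + b) / n % n = a ∧
    (((j * k + l) * n + a) * n + b) % n = b := by
  have hn : 0 < n := by omega
  have hk : 0 < k := by omega
  have e1 : (((j * k + l) * n + a) * n + b) / n = (j * k + l) * n + a := by
    rw [Nat.add_comm, Nat.add_mul_div_right _ _ hn, Nat.div_eq_of_lt hb, Nat.zero_add]
  have e2 : ((j * k + l) * n + a) / n = j * k + l := by
    rw [Nat.add_comm, Nat.add_mul_div_right _ _ hn, Nat.div_eq_of_lt ha, Nat.zero_add]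
  have e3 : (j * k + l) / k = j := by
    rw [Nat.add_comm, Nat.add_mul_div_right _ _ hk, Nat.div_eq_of_lt hl, Nat.zero_add]
  refine ⟨?_, ?_, ?_, ?_⟩
  · rw [e1, e2, e3]
  · rw [e1, e2, Nat.add_comm, Nat.add_mul_mod_self_right, Nat.mod_eq_of_lt hl]
  · rw [e1, Nat.add_comm, Nat.add_mul_mod_self_right, Nat.mod_eq_of_lt ha]
  · rw [Nat.add_comm, Nat.add_mul_mod_self_right, Nat.mod_eq_of_lt hb]

end H93

/-- MODULE AT-6. A run of the timers through the clique schedule gives a clique. -/
theorem clique_of_game {k n : ℕ} (H : SimpleGraph (Fin n)) (h : ℕ → ℕ → Bool)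
    (hh : ∀ a b : Fin n, h a.1 b.1 = true ↔ H.Adj a b)
    (hg : Game k (n * k) (MM k n) (Sched k n h)) : ¬ H.CliqueFree k := by
  classical
  obtain ⟨f, hf, hstep⟩ := hg
  rcases Nat.eq_zero_or_pos k with hk | hk
  · subst hk
    intro hfree
    exact hfree ∅ ⟨by simp, by simp⟩
  have hMM : MM k n = TT k n * (k * (n * k) + 1) + 2 := rfl
  have hTT : TT k n = 1 + k * k * n * n := rfl
  have hn : 0 < n := by
    rcases Nat.eq_zero_or_pos n with hn | hn
    · subst hn
      have := hf 0 (by omega) ⟨0, hk⟩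
      simp at this
    · exact hn
  obtain ⟨r, hr, hconst⟩ := H93.exists_const (fun i => ∑ X, f i X) (TT k n) (k * (n * k))
    (fun i hi => H93.sum_le_succ (hstep i (by omega))) (by
      have : ∀ X ∈ (Finset.univ : Finset (Fin k)), f (TT k n * (k * (n * k) + 1)) X ≤ n * k :=
        fun X _ => (hf _ (by omega) X).le
      refine (Finset.sum_le_card_nsmul _ _ _ this).trans ?_
      simp)
  have hle : TT k n * (r + 1) ≤ TT k n * (k * (n * k) + 1) := Nat.mul_le_mul_left _ (by omega)
  have hmul : TT k n * (r + 1) = TT k n * r + TT k n := Nat.mul_succ _ _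
  have hex : ∀ i, TT k n * r ≤ i → i < TT k n * (r + 1) → ∃ π : Equiv.Perm (Fin k), ∀ Y : Fin k,
      Sched k n h (i + 1) Y.1 (f (i + 1) Y) ∧ f (i + 1) Y = f i (π Y) := fun i h1 h2 =>
    H93.step_eq (hconst i h1 h2) (hstep i (by omega))
  set x : Fin k → ℕ := f (TT k n * r + 1) with hx
  -- all the timers are permutations of `x`
  have hperm : ∀ m, m < TT k n → ∃ τ : Equiv.Perm (Fin k), ∀ Y, f (TT k n * r + 1 + m) Y = x (τ Y) := by
    intro m
    induction m with
    | zero => intro _; exact ⟨Equiv.refl _, fun Y => rfl⟩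
    | succ m ih =>
      intro hm
      obtain ⟨τ, hτ⟩ := ih (by omega)
      obtain ⟨π, hπ⟩ := hex (TT k n * r + 1 + m) (by omega) (by omega)
      refine ⟨π.trans τ, fun Y => ?_⟩
      rw [show TT k n * r + 1 + (m + 1) = TT k n * r + 1 + m + 1 by omega, (hπ Y).2, hτ]
      rfl
  -- the values of `x`
  have hxdiv : ∀ Y : Fin k, x Y / n = Y.1 := by
    intro Y
    obtain ⟨π, hπ⟩ := hex (TT k n * r) le_rfl (by omega)
    have h1 := (hπ Y).1
    have h0 : (TT k n * r + 1 - 1) % TT k n = 0 := by simp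
    rcases h1 with ⟨h2, -⟩ | ⟨-, h2⟩
    · exact absurd h0 h2
    · exact h2
  let v : Fin k → Fin n := fun Y => ⟨x Y % n, Nat.mod_lt _ hn⟩
  have hadj : ∀ j l : Fin k, j < l → H.Adj (v j) (v l) := by
    intro j l hjl
    by_contra hna
    have hfalse : h (x j % n) (x l % n) = false := by
      rw [Bool.eq_false_iff]
      intro htrue
      exact hna ((hh (v j) (v l)).1 htrue)
    obtain ⟨d1, d2, d3, d4⟩ := H93.dec_e (j := j.1) l.2 (v j).2 (v l).2
    set e := ((j.1 * k + l.1) * n + (v j).1) * n + (v l).1 with he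
    have helt : e < k * k * n * n := by
      have c1 : j.1 * k + l.1 + 1 ≤ k * k := by
        have : (j.1 + 1) * k ≤ k * k := Nat.mul_le_mul_right _ j.2
        have hl := l.2
        rw [Nat.succ_mul] at this
        omega
      have c2 : (j.1 * k + l.1) * n + (v j).1 + 1 ≤ k * k * n := by
        have : (j.1 * k + l.1 + 1) * n ≤ k * k * n := Nat.mul_le_mul_right _ c1
        have hj := (v j).2
        rw [Nat.succ_mul] at this
        omega
      have c3 : ((j.1 * k + l.1) * n + (v j).1 + 1) * n ≤ k * k * n * n :=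
        Nat.mul_le_mul_right _ c2
      have hl := (v l).2
      rw [Nat.succ_mul] at c3
      omega
    obtain ⟨τ, hτ⟩ := hperm (e + 1) (by omega)
    obtain ⟨π, hπ⟩ := hex (TT k n * r + (e + 1)) (by omega) (by omega)
    have h1 := (hπ j).1
    have hmod : (TT k n * r + (e + 1) + 1 - 1) % TT k n = e + 1 := by
      rw [Nat.add_sub_cancel, Nat.mul_add_mod]
      exact Nat.mod_eq_of_lt (by omega)
    have hval : f (TT k n * r + (e + 1) + 1) j = x (τ j) := by
      rw [← hτ j, show TT k n * r + (e + 1) + 1 = TT k n * r + 1 + (e + 1) by omega]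
    rw [hval] at h1
    unfold Sched at h1
    rw [hmod] at h1
    have hchk : IsCheck k n h e := by
      unfold IsCheck
      rw [d1, d2, d3, d4]
      exact ⟨hjl, hfalse⟩
    rcases h1 with ⟨-, -, h3⟩ | ⟨h2, -⟩
    · rw [Nat.add_sub_cancel, d1, d2, d3, d4] at h3
      have hne : j.1 ≠ l.1 := fun h => absurd hjl (by rw [Fin.lt_def]; omega)
      rcases h3 with ⟨h4, -⟩ | ⟨-, -, h4⟩ | ⟨h4, -, -⟩
      · exact hne h4
      · rcases h4 with ⟨h5, h6⟩ | ⟨h5, h6⟩
        · rw [hxdiv] at h5
          have : τ j = j := Fin.ext h5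
          rw [this] at h6
          exact h6 rfl
        · rw [hxdiv] at h5
          have : τ j = l := Fin.ext h5
          rw [this] at h6
          exact h6 rfl
      · exact h4 rfl
    · exact h2 ⟨by omega, by rw [Nat.add_sub_cancel]; exact hchk⟩
  have hadj' : ∀ j l : Fin k, j ≠ l → H.Adj (v j) (v l) := by
    intro j l hjl
    rcases lt_or_gt_of_ne hjl with h1 | h1
    · exact hadj j l h1
    · exact (hadj l j h1).symm
  have hinj : Function.Injective v := by
    intro j l hjl
    by_contra hne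
    have := hadj' j l hne
    rw [hjl] at this
    exact H.irrefl this
  intro hfree
  refine hfree (Finset.univ.image v) ⟨?_, ?_⟩
  · intro a ha b hb hab
    simp only [Finset.coe_image, Finset.coe_univ, Set.image_univ, Set.mem_range] at ha hb
    obtain ⟨j, rfl⟩ := ha
    obtain ⟨l, rfl⟩ := hb
    exact hadj' j l fun h => hab (congrArg v h)
  · rw [Finset.card_image_of_injective _ hinj, Finset.card_univ, Fintype.card_fin]

end Pool.Agent.Helper35.AT
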