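import Pool.Agent.Helper35.AT.Defs

set_option autoImplicit false

namespace Pool.Agent.Helper35.AT

/-- MODULE AT-7. A clique gives resting tokens for the clique schedule. -/
theorem tokens_of_clique {k n : ℕ} (H : SimpleGraph (Fin n)) (h : ℕ → ℕ → Bool)
    (hh : ∀ a b : Fin n, h a.1 b.1 = true ↔ H.Adj a b) (hc : ¬ H.CliqueFree k) :
    ∃ (x : Fin k → ℕ) (σ : ℕ → Equiv.Perm (Fin k)), (∀ a, x a < n * k) ∧
      ∀ i (Y : Fin k), Sched k n h i Y.1 (x (σ i Y)) := by
  obtain ⟨f⟩ := SimpleGraph.not_cliqueFree_iff k |>.1 hc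
  have hadj : ∀ a b : Fin k, a ≠ b → H.Adj (f a) (f b) := by
    intro a b hab
    exact f.toHom.map_adj hab
  set x : Fin k → ℕ := fun a => n * a.1 + (f a).1 with hx
  have hdiv : ∀ a, x a / n = a.1 := by
    intro a
    have hn : 0 < n := lt_of_le_of_lt (Nat.zero_le _) (f a).2
    simp only [hx]
    rw [Nat.mul_add_div hn, Nat.div_eq_of_lt (f a).2, add_zero]
  have hmod : ∀ a, x a % n = (f a).1 := by
    intro a
    simp only [hx]
    rw [Nat.mul_add_mod, Nat.mod_eq_of_lt (f a).2]
  have hlt : ∀ a, x a < n * k := by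
    intro a
    have h1 := (f a).2
    have h2 : n * (a.1 + 1) ≤ n * k := Nat.mul_le_mul_left n a.2
    have h3 : n * (a.1 + 1) = n * a.1 + n := by ring
    simp only [hx]
    omega
  have key : ∀ i : ℕ, ∃ π : Equiv.Perm (Fin k), ∀ Y : Fin k, Sched k n h i Y.1 (x (π Y)) := by
    intro i
    by_cases hcond : (i - 1) % TT k n ≠ 0 ∧ IsCheck k n h ((i - 1) % TT k n - 1)
    · set e := (i - 1) % TT k n - 1 with he
      rcases Nat.eq_zero_or_pos k with hk | hk
      · subst hk
        exact ⟨1, fun Y => Y.elim0⟩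
      have hcheck := hcond.2
      unfold IsCheck at hcheck
      obtain ⟨hjl, hab⟩ := hcheck
      have hn : 0 < n := lt_of_le_of_lt (Nat.zero_le _) (f ⟨0, hk⟩).2
      have hl : e / n / n % k < k := Nat.mod_lt _ hk
      have hj : e / n / n / k < k := lt_trans hjl hl
      have ha : e / n % n < n := Nat.mod_lt _ hn
      have hb : e % n < n := Nat.mod_lt _ hn
      set j := e / n / n / k with hjdef
      set l := e / n / n % k with hldef
      set a := e / n % n with hadef
      set b := e % n with hbdef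
      have hne : (⟨j, hj⟩ : Fin k) ≠ ⟨l, hl⟩ := by
        intro h'
        have := congrArg Fin.val h'
        simp only at this
        omega
      by_cases hv : (f ⟨j, hj⟩).1 = a
      · refine ⟨Equiv.swap ⟨j, hj⟩ ⟨l, hl⟩, fun Y => Or.inl ⟨hcond.1, hcond.2, ?_⟩⟩
        change Check n j l a b Y.1 _
        by_cases hYl : Y = ⟨l, hl⟩
        · left
          refine ⟨by rw [hYl], Or.inl ?_⟩
          rw [hYl, Equiv.swap_apply_right, hdiv]
        · by_cases hYj : Y = ⟨j, hj⟩
          · right; left
            refine ⟨by rw [hYj], ?_, Or.inr ⟨?_, ?_⟩⟩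
            · rw [hYj]
              exact (ne_of_lt hjl)
            · rw [hYj, Equiv.swap_apply_left, hdiv]
            · rw [hYj, Equiv.swap_apply_left, hmod]
              intro hb'
              have h1 : h (f ⟨j, hj⟩).1 (f ⟨l, hl⟩).1 = true := (hh _ _).2 (hadj _ _ hne)
              rw [hv, hb', hab] at h1
              exact Bool.false_ne_true h1
          · right; right
            rw [Equiv.swap_apply_of_ne_of_ne hYj hYl, hdiv]
            exact ⟨fun h' => hYj (Fin.ext h'), fun h' => hYl (Fin.ext h'), rfl⟩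
      · refine ⟨1, fun Y => Or.inl ⟨hcond.1, hcond.2, ?_⟩⟩
        change Check n j l a b Y.1 (x Y)
        by_cases hYl : Y = ⟨l, hl⟩
        · left
          refine ⟨by rw [hYl], Or.inr ?_⟩
          rw [hYl, hdiv]
        · by_cases hYj : Y = ⟨j, hj⟩
          · right; left
            refine ⟨by rw [hYj], ?_, Or.inl ⟨?_, ?_⟩⟩
            · rw [hYj]
              exact (ne_of_lt hjl)
            · rw [hYj, hdiv]
            · rw [hYj, hmod]
              exact hv
          · right; right
            rw [hdiv]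
            exact ⟨fun h' => hYj (Fin.ext h'), fun h' => hYl (Fin.ext h'), rfl⟩
    · refine ⟨1, fun Y => Or.inr ⟨hcond, ?_⟩⟩
      exact hdiv Y
  choose σ hσ using key
  exact ⟨x, σ, hlt, hσ⟩

end Pool.Agent.Helper35.AT
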