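import Pool.Agent.Helper35.AT.Defs

set_option autoImplicit false

namespace Pool.Agent.Helper35.AT

namespace H55

theorem nodup_flatMap_of {α β : Type} {l : List α} {f : α → List β} (hl : l.Nodup)
    (hf : ∀ x ∈ l, (f x).Nodup) (π : β → α) (hπ : ∀ x, ∀ y ∈ f x, π y = x) :
    (l.flatMap f).Nodup := by
  refine List.nodup_flatMap.2 ⟨hf, hl.imp ?_⟩
  intro a b hab y ha hb
  exact hab ((hπ a y ha).symm.trans (hπ b y hb))

theorem nodup_verts (M k B : ℕ) : (verts M k B).Nodup := by
  unfold verts
  refine nodup_flatMap_of List.nodup_range (fun i _ => ?_) (fun v => v.1) ?_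
  · refine nodup_flatMap_of List.nodup_range (fun g _ => ?_) (fun v => v.2.1) ?_
    · refine nodup_flatMap_of List.nodup_range (fun j _ => ?_) (fun v => v.2.2.1) ?_
      · refine List.nodup_range.map ?_
        intro a b h
        have h1 : (i, g, j, a) = (i, g, j, b) := h
        simpa using h1
      · intro j v hv
        simp only [List.mem_map] at hv
        obtain ⟨s, -, rfl⟩ := hv
        rfl
    · intro g v hv
      simp only [List.mem_flatMap, List.mem_map] at hv
      obtain ⟨j, -, s, -, rfl⟩ := hv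
      rfl
  · intro i v hv
    simp only [List.mem_flatMap, List.mem_map] at hv
    obtain ⟨g, -, j, -, s, -, rfl⟩ := hv
    rfl

theorem mem_verts {M k B : ℕ} {v : P} : v ∈ verts M k B ↔ Good M k B v := by
  obtain ⟨i, g, j, s⟩ := v
  simp only [verts, List.mem_flatMap, List.mem_map, List.mem_range, Good]
  constructor
  · rintro ⟨i', hi, g', hg, j', hj, s', hs, h⟩
    simp only [Prod.mk.injEq] at h
    obtain ⟨rfl, rfl, rfl, rfl⟩ := h
    exact ⟨hi, hg, hj, hs⟩
  · rintro ⟨hi, hg, hj, hs⟩
    exact ⟨i, hi, g, hg, j, hj, s, hs, rfl⟩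

end H55

/-- MODULE AT-8a. The matrix is the adjacency matrix of a graph isomorphic to the token graph. -/
theorem exists_graph (M k B : ℕ) (A : ℕ → ℕ → ℕ → Prop) :
    ∃ (m : ℕ) (G : SimpleGraph (Fin m)),
      (∀ c, List.replicate c true ++ false :: mat M k B A = code c G) ∧
      Nonempty (G ≃g TG M k B A) := by
  classical
  let K : SimpleGraph P := SimpleGraph.fromRel fun v w => Up B A v w
  refine ⟨(verts M k B).length, K.comap fun a => (verts M k B).get a, ?_, ?_⟩
  · intro c
    have h0 : ∀ f : P → List Bool, (verts M k B).flatMap f =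
        (List.finRange (verts M k B).length).flatMap fun i => f ((verts M k B).get i) := by
      intro f
      conv_lhs => rw [← List.map_get_finRange (verts M k B)]
      rw [List.flatMap_map]
    have h1 : ∀ f : P → Bool, (verts M k B).map f =
        (List.finRange (verts M k B).length).map fun i => f ((verts M k B).get i) := by
      intro f
      conv_lhs => rw [← List.map_get_finRange (verts M k B)]
      rw [List.map_map]
      rfl
    unfold code mat
    rw [h0]
    congr 2
    refine List.flatMap_congr fun i _ => ?_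
    rw [h1]
    refine List.map_congr_left fun j _ => ?_
    rw [decide_eq_decide]
    rfl
  · refine ⟨⟨(List.Nodup.getEquiv _ (H55.nodup_verts M k B)).trans
      (Equiv.subtypeEquivRight fun v => H55.mem_verts), ?_⟩⟩
    intro a b
    change (TG M k B A).Adj _ _ ↔ K.Adj _ _
    unfold TG
    rw [SimpleGraph.fromRel_adj, SimpleGraph.fromRel_adj]
    refine and_congr ?_ Iff.rfl
    rw [Ne, Ne, Subtype.ext_iff]
    rfl

/-- MODULE AT-8b. -/
theorem ATFree.of_iso {V W : Type} {G : SimpleGraph V} {H : SimpleGraph W} (e : G ≃g H)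
    (h : ATFree H) : ATFree G := by
  have key : ∀ {x y : V} (z : V), (∃ p : G.Walk x y, ∀ v ∈ p.support, v ≠ z ∧ ¬ G.Adj z v) →
      ∃ p : H.Walk (e x) (e y), ∀ v ∈ p.support, v ≠ e z ∧ ¬ H.Adj (e z) v := by
    rintro x y z ⟨p, hp⟩
    refine ⟨p.map e.toHom, fun v hv => ?_⟩
    rw [SimpleGraph.Walk.support_map, List.mem_map] at hv
    obtain ⟨v', hv', rfl⟩ := hv
    obtain ⟨h1, h2⟩ := hp v' hv'
    exact ⟨fun h => h1 (e.injective h), fun h => h2 (e.map_adj_iff.1 h)⟩
  rintro ⟨x, y, z, h1, h2, h3⟩
  exact h ⟨e x, e y, e z, key z h1, key x h2, key y h3⟩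

/-- MODULE AT-8c. -/
theorem colorable_iff_of_iso {V W : Type} {G : SimpleGraph V} {H : SimpleGraph W} (e : G ≃g H)
    (c : ℕ) : G.Colorable c ↔ H.Colorable c :=
  ⟨fun h => SimpleGraph.Colorable.of_hom e.symm.toHom h,
    fun h => SimpleGraph.Colorable.of_hom e.toHom h⟩

end Pool.Agent.Helper35.AT
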