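import Pool.Agent.Helper35.AT.T3
import Pool.Agent.Helper35.AT.T4
import Pool.Agent.Helper35.AT.T5
import Pool.Agent.Helper35.AT.T6
import Pool.Agent.Helper35.AT.T7
import Pool.Agent.Helper35.AT.T8
import Pool.Agent.Helper35.AT.T9
import Pool.Agent.Helper35.AT.T10
import Pool.Agent.Helper35.AT.T11
import Pool.Agent.Helper69.TM.Equiv

set_option autoImplicit false

namespace Pool.Agent.Helper35.AT

open Pool.Agent.Helper96

theorem red_spec (k n : ℕ) (H : SimpleGraph (Fin n)) :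
    ∃ (m : ℕ) (G : SimpleGraph (Fin m)), ATFree G ∧ red (code k H) = code (7 * k) G ∧
      (G.Colorable (7 * k) ↔ ¬ H.CliqueFree k) := by
  obtain ⟨h1, h2, h3⟩ := decode k n H
  obtain ⟨m, G, hG, ⟨e⟩⟩ := exists_graph (MM k n) k (n * k) (Sched k n (hOf (code k H)))
  refine ⟨m, G, ATFree.of_iso e (atfree _ _ _ _), ?_, ?_⟩
  · rw [← hG]
    unfold red
    rw [h1, h2]
  · rw [colorable_iff_of_iso e]
    constructor
    · intro hc
      exact clique_of_game H _ h3 (sound hc)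
    · intro hc
      obtain ⟨x, σ, hx, hs⟩ := tokens_of_clique H _ h3 hc
      exact complete x hx σ fun i _ _ Y => hs i Y

/-- instances of COLORING on AT-free graphs -/
def ATCOL : Set (List Bool) :=
  {w | ∃ (k m : ℕ) (G : SimpleGraph (Fin m)), w = code k G ∧ ATFree G ∧ G.Colorable k}

theorem code_iso {k k' n n' : ℕ} {G : SimpleGraph (Fin n)} {G' : SimpleGraph (Fin n')}
    (h : code k G = code k' G') : k = k' ∧ Nonempty (G ≃g G') := by
  obtain ⟨h1, h2, h3⟩ := decode k n G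
  obtain ⟨h4, h5, h6⟩ := decode k' n' G'
  rw [h] at h1 h2 h3
  refine ⟨h1.symm.trans h4, ?_⟩
  have hn : n = n' := h2.symm.trans h5
  subst hn
  refine ⟨⟨Equiv.refl _, ?_⟩⟩
  intro a b
  rw [← h3 a b, ← h6]
  rfl

theorem main : (∃ f : List Bool → List Bool, PolyTimeFun f ∧
      ∀ (k n : ℕ) (H : SimpleGraph (Fin n)), ∃ (m : ℕ) (G : SimpleGraph (Fin m)),
        ATFree G ∧ f (code k H) = code (7 * k) G ∧ (G.Colorable (7 * k) ↔ ¬ H.CliqueFree k)) ∧
    ∀ L, InNP L → ∃ f, PolyTimeFun f ∧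
      (∀ w, ∃ (k n : ℕ) (G : SimpleGraph (Fin n)), f w = code k G ∧ ATFree G) ∧
      ∀ w, w ∈ L ↔ f w ∈ ATCOL := by
  refine ⟨⟨red, (Pool.Agent.Helper69.polyTimeFun_iff _).2 poly_red, red_spec⟩, ?_⟩
  intro L hL
  obtain ⟨f, hf, hw⟩ := clique_hard L hL
  refine ⟨fun w => red (f w), (Pool.Agent.Helper69.polyTimeFun_iff _).2 (poly_red.comp hf), ?_,
    ?_⟩
  · intro w
    obtain ⟨k, n, H, h1, -⟩ := hw w
    obtain ⟨m, G, h3, h4, -⟩ := red_spec k n H
    exact ⟨7 * k, m, G, by rw [← h4, ← h1], h3⟩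
  intro w
  obtain ⟨k, n, H, h1, h2⟩ := hw w
  obtain ⟨m, G, h3, h4, h5⟩ := red_spec k n H
  change _ ↔ red (f w) ∈ ATCOL
  rw [h2, ← h5, h1]
  constructor
  · intro hc
    exact ⟨7 * k, m, G, h4, h3, hc⟩
  · rintro ⟨k', m', G', h6, h7, h8⟩
    rw [h4] at h6
    obtain ⟨rfl, ⟨e⟩⟩ := code_iso h6
    exact (colorable_iff_of_iso e _).2 h8

end Pool.Agent.Helper35.AT
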