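import Pool.Agent.Helper35.AT.Defs

set_option autoImplicit false

namespace Pool.Agent.Helper35.AT

/-- MODULE AT-1. Every block of a wire contains the 5-cycle 9b, 9b+2, 9b+4, 9b+5, 9b+3, so it needs
three colours. -/
theorem three {γ : Type} [DecidableEq γ] (B b : ℕ) (hb : b ≤ B) (c : ℕ → γ)
    (hc : ∀ s t, t < 9 * B + 7 → WireUp s t → c s ≠ c t) :
    3 ≤ (((Finset.range (9 * B + 7)).filter fun s => block s = b).image c).card := by
  have hmem : ∀ i, i ≤ 5 → c (9 * b + i) ∈
      (((Finset.range (9 * B + 7)).filter fun s => block s = b).image c) := by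
    intro i hi
    apply Finset.mem_image_of_mem
    rw [Finset.mem_filter, Finset.mem_range]
    refine ⟨by omega, ?_⟩
    unfold block
    omega
  have h02 : c (9 * b + 0) ≠ c (9 * b + 2) := by
    apply hc _ _ (by omega)
    unfold WireUp
    omega
  have h24 : c (9 * b + 2) ≠ c (9 * b + 4) := by
    apply hc _ _ (by omega)
    unfold WireUp
    omega
  have h45 : c (9 * b + 4) ≠ c (9 * b + 5) := by
    apply hc _ _ (by omega)
    unfold WireUp
    omega
  have h35 : c (9 * b + 3) ≠ c (9 * b + 5) := by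
    apply hc _ _ (by omega)
    unfold WireUp
    omega
  have h03 : c (9 * b + 0) ≠ c (9 * b + 3) := by
    apply hc _ _ (by omega)
    unfold WireUp
    omega
  have h0 := hmem 0 (by omega)
  have h2 := hmem 2 (by omega)
  have h3 := hmem 3 (by omega)
  have h4 := hmem 4 (by omega)
  have h5 := hmem 5 (by omega)
  show 2 < _
  rw [Finset.two_lt_card]
  by_cases e04 : c (9 * b + 0) = c (9 * b + 4)
  · by_cases e25 : c (9 * b + 2) = c (9 * b + 5)
    · exact ⟨_, h0, _, h2, _, h3, h02, h03, fun h => h35 (h.symm.trans e25)⟩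
    · exact ⟨_, h0, _, h2, _, h5, h02, fun h => h45 (e04.symm.trans h), e25⟩
  · exact ⟨_, h0, _, h2, _, h4, h02, e04, h24⟩

end Pool.Agent.Helper35.AT
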