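import Pool.Agent.Helper35.AT.Defs

set_option autoImplicit false

namespace Pool.Agent.Helper35.AT

/-- the vertex `z` lies strictly between -/
private def K (b z : P) : Prop :=
  z.1 = b.1 ∧ Same z b ∧ b.2.2.2 % 3 = 0 ∧ (z.2.2.2 = b.2.2.2 + 1 ∨ z.2.2.2 + 1 = b.2.2.2)

private def lt (a b : P) : Prop := a.1 < b.1 ∨ (a.1 = b.1 ∧ a.2.2.2 < b.2.2.2)

open Classical in
private noncomputable def reg (b z : P) : ℕ := if K b z then 1 else if lt z b then 0 else 2

private lemma same_symm {a b : P} (h : Same a b) : Same b a := ⟨h.1.symm, h.2.symm⟩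

private lemma same_trans {a b c : P} (h : Same a b) (h' : Same b c) : Same a c :=
  ⟨h.1.trans h'.1, h.2.trans h'.2⟩

/-- non-neighbour -/
private def NN (B : ℕ) (A : ℕ → ℕ → ℕ → Prop) (b z : P) : Prop :=
  z ≠ b ∧ ¬ Up B A b z ∧ ¬ Up B A z b

private lemma NN.same {B : ℕ} {A : ℕ → ℕ → ℕ → Prop} {b z : P} (h : NN B A b z)
    (e : z.1 = b.1) : Same z b := by
  by_contra hs
  exact h.2.2 (Or.inr (Or.inl ⟨e, hs⟩))

private lemma NN.symm {B : ℕ} {A : ℕ → ℕ → ℕ → Prop} {b z : P} (h : NN B A b z) :
    NN B A z b := ⟨h.1.symm, h.2.2, h.2.1⟩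

private lemma ne_pos {b z : P} (h : z ≠ b) (e : z.1 = b.1) (s : Same z b) :
    z.2.2.2 ≠ b.2.2.2 := by
  intro h'
  apply h
  obtain ⟨a1, a2, a3, a4⟩ := z
  obtain ⟨b1, b2, b3, b4⟩ := b
  obtain ⟨s1, s2⟩ := s
  simp only at *
  subst e s1 s2 h'
  rfl

private lemma lc0 (b u v : ℕ) (hub : u ≠ b) (hvb : v ≠ b)
    (a1 : u ≠ b + 2) (a2 : b ≠ u + 2) (a3 : v ≠ b + 2) (a4 : b ≠ v + 2)
    (b1 : b % 3 = 1 → u ≠ b + 1) (b2 : u % 3 = 1 → b ≠ u + 1)
    (b3 : b % 3 = 1 → v ≠ b + 1) (b4 : v % 3 = 1 → b ≠ v + 1)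
    (c1 : b % 3 = 0 → u ≠ b + 3) (c2 : u % 3 = 0 → b ≠ u + 3)
    (c3 : b % 3 = 0 → v ≠ b + 3) (c4 : v % 3 = 0 → b ≠ v + 3)
    (h : v = u + 2 ∨ (v = u + 1 ∧ u % 3 = 1) ∨ (v = u + 3 ∧ u % 3 = 0) ∨
      (u = 0 ∧ v = 1) ∨ (v = u + 1 ∧ u % 3 = 2)) :
    (b % 3 = 0 ∧ (u = b + 1 ∨ u + 1 = b) ↔ b % 3 = 0 ∧ (v = b + 1 ∨ v + 1 = b)) ∧
    (¬ (b % 3 = 0 ∧ (u = b + 1 ∨ u + 1 = b)) → (u < b ↔ v < b)) := by
  have hm : b % 3 = 0 ∨ b % 3 = 1 ∨ b % 3 = 2 := by omega
  rcases h with h | ⟨h, h'⟩ | ⟨h, h'⟩ | ⟨h, h'⟩ | ⟨h, h'⟩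
  · subst h
    rcases hm with hm | hm | hm
    · have c1 := c1 hm
      have c3 := c3 hm
      clear b1 b3
      simp only [hm, true_and]
      refine ⟨⟨fun hh => ?_, fun hh => ?_⟩, fun hh => ?_⟩
      · rcases hh with hh | hh
        · exfalso; omega
        · left; omega
      · rcases hh with hh | hh
        · right; omega
        · exfalso
          apply c2 (by omega); omega
      · push Not at hh
        constructor <;> intro h5 <;> omega
    · have : ¬ (b % 3 = 0) := by omega
      simp only [this, false_and, iff_self, true_and, not_false_eq_true, forall_true_left]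
      constructor <;> intro h5 <;> omega
    · have : ¬ (b % 3 = 0) := by omega
      simp only [this, false_and, iff_self, true_and, not_false_eq_true, forall_true_left]
      have h6 : ¬ (u % 3 = 1 ∧ b = u + 1) := fun hh => b2 hh.1 hh.2
      constructor <;> intro h5 <;> omega
  · subst h
    rcases hm with hm | hm | hm
    · have c1 := c1 hm
      have c3 := c3 hm
      clear b1 b3
      simp only [hm, true_and]
      refine ⟨⟨fun hh => ?_, fun hh => ?_⟩, fun hh => ?_⟩
      · exfalso; rcases hh with hh | hh <;> omega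
      · exfalso; rcases hh with hh | hh <;> omega
      · constructor <;> intro h5 <;> omega
    · have : ¬ (b % 3 = 0) := by omega
      simp only [this, false_and, iff_self, true_and, not_false_eq_true, forall_true_left]
      constructor <;> intro h5 <;> omega
    · have : ¬ (b % 3 = 0) := by omega
      simp only [this, false_and, iff_self, true_and, not_false_eq_true, forall_true_left]
      constructor <;> intro h5 <;> omega
  · subst h
    rcases hm with hm | hm | hm
    · have c1 := c1 hm
      have c3 := c3 hm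
      clear b1 b3
      simp only [hm, true_and]
      refine ⟨⟨fun hh => ?_, fun hh => ?_⟩, fun hh => ?_⟩
      · exfalso; rcases hh with hh | hh <;> omega
      · exfalso; rcases hh with hh | hh <;> omega
      · constructor <;> intro h5 <;> omega
    · have : ¬ (b % 3 = 0) := by omega
      simp only [this, false_and, iff_self, true_and, not_false_eq_true, forall_true_left]
      constructor <;> intro h5 <;> omega
    · have : ¬ (b % 3 = 0) := by omega
      simp only [this, false_and, iff_self, true_and, not_false_eq_true, forall_true_left]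
      constructor <;> intro h5 <;> omega
  · subst h; subst h'
    rcases hm with hm | hm | hm
    · have c1 := c1 hm
      have c3 := c3 hm
      clear b1 b3
      simp only [hm, true_and]
      refine ⟨⟨fun hh => ?_, fun hh => ?_⟩, fun hh => ?_⟩
      · exfalso; rcases hh with hh | hh <;> omega
      · exfalso; rcases hh with hh | hh <;> omega
      · constructor <;> intro h5 <;> omega
    · have : ¬ (b % 3 = 0) := by omega
      simp only [this, false_and, iff_self, true_and, not_false_eq_true, forall_true_left]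
      constructor <;> intro h5 <;> omega
    · have : ¬ (b % 3 = 0) := by omega
      simp only [this, false_and, iff_self, true_and, not_false_eq_true, forall_true_left]
      constructor <;> intro h5 <;> omega
  · subst h
    rcases hm with hm | hm | hm
    · have c1 := c1 hm
      have c3 := c3 hm
      clear b1 b3
      simp only [hm, true_and]
      refine ⟨⟨fun hh => ?_, fun hh => ?_⟩, fun hh => ?_⟩
      · exfalso; rcases hh with hh | hh <;> omega
      · exfalso; rcases hh with hh | hh <;> omega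
      · constructor <;> intro h5 <;> omega
    · have : ¬ (b % 3 = 0) := by omega
      simp only [this, false_and, iff_self, true_and, not_false_eq_true, forall_true_left]
      constructor <;> intro h5 <;> omega
    · have : ¬ (b % 3 = 0) := by omega
      simp only [this, false_and, iff_self, true_and, not_false_eq_true, forall_true_left]
      constructor <;> intro h5 <;> omega

private lemma local_check (B : ℕ) (act : Prop) (b u v : ℕ) (hub : u ≠ b) (hvb : v ≠ b)
    (h1 : ¬ LaneUp B act b u) (h2 : ¬ LaneUp B act u b)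
    (h3 : ¬ LaneUp B act b v) (h4 : ¬ LaneUp B act v b) (h : LaneUp B act u v) :
    (b % 3 = 0 ∧ (u = b + 1 ∨ u + 1 = b) ↔ b % 3 = 0 ∧ (v = b + 1 ∨ v + 1 = b)) ∧
    (¬ (b % 3 = 0 ∧ (u = b + 1 ∨ u + 1 = b)) → (u < b ↔ v < b)) := by
  have g2 : ∀ {x y : ℕ}, ¬ LaneUp B act x y → y ≠ x + 2 := fun hh hc =>
    hh (Or.inl (Or.inl hc))
  have g1 : ∀ {x y : ℕ}, ¬ LaneUp B act x y → x % 3 = 1 → y ≠ x + 1 := fun hh hm hc =>
    hh (Or.inl (Or.inr (Or.inl ⟨hc, hm⟩)))
  have g3 : ∀ {x y : ℕ}, ¬ LaneUp B act x y → x % 3 = 0 → y ≠ x + 3 := fun hh hm hc =>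
    hh (Or.inl (Or.inr (Or.inr ⟨hc, hm⟩)))
  refine lc0 b u v hub hvb (g2 h1) (g2 h2) (g2 h3) (g2 h4) (g1 h1) (g1 h2) (g1 h3) (g1 h4)
    (g3 h1) (g3 h2) (g3 h3) (g3 h4) ?_
  rcases h with (h | ⟨h, h'⟩ | ⟨h, h'⟩) | ⟨_, ⟨h, h'⟩ | ⟨h, h'⟩⟩
  · exact Or.inl h
  · exact Or.inr (Or.inl ⟨h, h'⟩)
  · exact Or.inr (Or.inr (Or.inl ⟨h, h'⟩))
  · exact Or.inr (Or.inr (Or.inr (Or.inl ⟨h, h'⟩)))
  · refine Or.inr (Or.inr (Or.inr (Or.inr ⟨by omega, by omega⟩)))

private lemma key_up (B : ℕ) (A : ℕ → ℕ → ℕ → Prop) (b u v : P) (hu : NN B A b u)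
    (hv : NN B A b v) (h : Up B A u v) : reg b u = reg b v := by
  classical
  have hord : u.1 = v.1 ∨ (u.1 + 1 = v.1 ∧ ¬ Same u v ∧ ¬ (Act u ∧ Act v ∧ Pass B A u v)) := by
    rcases h with h | h | h
    · exact Or.inl h.1
    · exact Or.inl h.1
    · exact Or.inr h
  rcases hord with e | ⟨e, hs, hp⟩
  · rcases lt_trichotomy u.1 b.1 with h1 | h1 | h1
    · have k1 : ¬ K b u := fun hk => by have := hk.1; omega
      have k2 : ¬ K b v := fun hk => by have := hk.1; omega
      have l1 : lt u b := Or.inl h1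
      have l2 : lt v b := Or.inl (by omega)
      simp [reg, k1, k2, l1, l2]
    · have h2 : v.1 = b.1 := by omega
      have su := hu.same h1
      have sv := hv.same h2
      have suv : Same u v := same_trans su (same_symm sv)
      have nu := ne_pos hu.1 h1 su
      have nv := ne_pos hv.1 h2 sv
      have actu : Act u ↔ Act b := by
        unfold Act; rw [su.1, h1]
      have actv : Act v ↔ Act b := by
        unfold Act; rw [sv.1, h2]
      have hL : LaneUp B (Act b) u.2.2.2 v.2.2.2 := by
        rcases h with h | h | h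
        · rw [← actu]; exact h.2.2
        · exact absurd suv h.2
        · omega
      have c1 : ¬ LaneUp B (Act b) b.2.2.2 u.2.2.2 := fun hc =>
        hu.2.1 (Or.inl ⟨h1.symm, same_symm su, hc⟩)
      have c2 : ¬ LaneUp B (Act b) u.2.2.2 b.2.2.2 := fun hc =>
        hu.2.2 (Or.inl ⟨h1, su, by rw [actu]; exact hc⟩)
      have c3 : ¬ LaneUp B (Act b) b.2.2.2 v.2.2.2 := fun hc =>
        hv.2.1 (Or.inl ⟨h2.symm, same_symm sv, hc⟩)
      have c4 : ¬ LaneUp B (Act b) v.2.2.2 b.2.2.2 := fun hc =>
        hv.2.2 (Or.inl ⟨h2, sv, by rw [actv]; exact hc⟩)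
      obtain ⟨r1, r2⟩ := local_check B (Act b) b.2.2.2 u.2.2.2 v.2.2.2 nu nv c1 c2 c3 c4 hL
      have ku : K b u ↔ b.2.2.2 % 3 = 0 ∧ (u.2.2.2 = b.2.2.2 + 1 ∨ u.2.2.2 + 1 = b.2.2.2) := by
        unfold K; simp [h1, su]
      have kv : K b v ↔ b.2.2.2 % 3 = 0 ∧ (v.2.2.2 = b.2.2.2 + 1 ∨ v.2.2.2 + 1 = b.2.2.2) := by
        unfold K; simp [h2, sv]
      have lu : lt u b ↔ u.2.2.2 < b.2.2.2 := by unfold lt; simp [h1]
      have lv : lt v b ↔ v.2.2.2 < b.2.2.2 := by unfold lt; simp [h2]
      by_cases hk : K b u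
      · have hk' : K b v := kv.2 (r1.1 (ku.1 hk))
        simp [reg, hk, hk']
      · have hk' : ¬ K b v := fun hc => hk (ku.2 (r1.2 (kv.1 hc)))
        have := r2 (fun hc => hk (ku.2 hc))
        simp only [reg, hk, hk', if_false, lu, lv, this]
    · have k1 : ¬ K b u := fun hk => by have := hk.1; omega
      have k2 : ¬ K b v := fun hk => by have := hk.1; omega
      have l1 : ¬ lt u b := by unfold lt; omega
      have l2 : ¬ lt v b := by unfold lt; omega
      simp [reg, k1, k2, l1, l2]
  · rcases lt_trichotomy v.1 b.1 with h1 | h1 | h1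
    · have k1 : ¬ K b u := fun hk => by have := hk.1; omega
      have k2 : ¬ K b v := fun hk => by have := hk.1; omega
      have l1 : lt u b := Or.inl (by omega)
      have l2 : lt v b := Or.inl h1
      simp [reg, k1, k2, l1, l2]
    · -- `v` is in the phase of `b`
      have sv := hv.same h1
      have k1 : ¬ K b u := fun hk => by have := hk.1; omega
      have l1 : lt u b := Or.inl (by omega)
      have hub : ¬ Same u b := fun hc => hs (same_trans hc (same_symm sv))
      have hpb : Act u ∧ Act b ∧ Pass B A u b := by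
        by_contra hc
        exact hu.2.2 (Or.inr (Or.inr ⟨by omega, hub, hc⟩))
      obtain ⟨au, ab, t, ht, hA, hl, hr⟩ := hpb
      have av : Act v := by unfold Act at *; rw [sv.1, h1]; exact ab
      have hblk : block v.2.2.2 < block b.2.2.2 := by
        by_contra hc
        apply hp
        refine ⟨au, av, t, ht, ?_, hl, by omega⟩
        rw [h1, sv.2]; exact hA
      unfold block at hblk
      have k2 : ¬ K b v := fun hk => by
        have h3 := hk.2.2
        omega
      have l2 : lt v b := Or.inr ⟨h1, by omega⟩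
      simp [reg, k1, k2, l1, l2]
    · rcases Nat.lt_or_ge b.1 u.1 with h2 | h2
      · have k1 : ¬ K b u := fun hk => by have := hk.1; omega
        have k2 : ¬ K b v := fun hk => by have := hk.1; omega
        have l1 : ¬ lt u b := by unfold lt; omega
        have l2 : ¬ lt v b := by unfold lt; omega
        simp [reg, k1, k2, l1, l2]
      · have h3 : u.1 = b.1 := by omega
        have su := hu.same h3
        have k2 : ¬ K b v := fun hk => by have := hk.1; omega
        have l2 : ¬ lt v b := by unfold lt; omega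
        have hbv : ¬ Same b v := fun hc => hs (same_trans su hc)
        have hpb : Act b ∧ Act v ∧ Pass B A b v := by
          by_contra hc
          exact hv.2.1 (Or.inr (Or.inr ⟨by omega, hbv, hc⟩))
        obtain ⟨ab, av, t, ht, hA, hl, hr⟩ := hpb
        have au : Act u := by unfold Act at *; rw [su.1, h3]; exact ab
        have hblk : block b.2.2.2 < block u.2.2.2 := by
          by_contra hc
          exact hp ⟨au, av, t, ht, hA, by omega, hr⟩
        unfold block at hblk
        have k1 : ¬ K b u := fun hk => by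
          have h3 := hk.2.2
          omega
        have l1 : ¬ lt u b := by unfold lt; omega
        simp [reg, k1, k2, l1, l2]

private lemma middle (B : ℕ) (A : ℕ → ℕ → ℕ → Prop) (f m l : P) (h1 : lt f m) (h2 : lt m l)
    (hfl : NN B A f l) (hr : reg m f = reg m l) : False := by
  classical
  have h3 : ¬ lt l m := by unfold lt at *; omega
  by_cases hk : K m f
  · by_cases hk' : K m l
    · obtain ⟨a1, a2, a3, a4⟩ := hk
      obtain ⟨b1, b2, b3, b4⟩ := hk'
      apply hfl.2.1
      refine Or.inl ⟨by omega, same_trans a2 (same_symm b2), Or.inl (Or.inl ?_)⟩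
      unfold lt at *
      omega
    · simp [reg, hk, hk', h3] at hr
  · by_cases hk' : K m l
    · simp [reg, hk, hk', h1] at hr
    · simp [reg, hk, hk', h1, h3] at hr

/-- MODULE AT-3. The token graphs have no asteroidal triple (for every schedule). -/
theorem atfree (M k B : ℕ) (A : ℕ → ℕ → ℕ → Prop) : ATFree (TG M k B A) := by
  have nn : ∀ (z v : V M k B), v ≠ z ∧ ¬ (TG M k B A).Adj z v → NN B A z.1 v.1 := by
    intro z v ⟨h1, h2⟩
    unfold TG at h2
    rw [SimpleGraph.fromRel_adj] at h2
    refine ⟨fun hc => h1 (Subtype.ext hc), fun hc => h2 ⟨h1.symm, Or.inl hc⟩,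
      fun hc => h2 ⟨h1.symm, Or.inr hc⟩⟩
  have walk : ∀ (z x y : V M k B) (p : (TG M k B A).Walk x y),
      (∀ v ∈ p.support, v ≠ z ∧ ¬ (TG M k B A).Adj z v) → reg z.1 x.1 = reg z.1 y.1 := by
    intro z x y p
    induction p with
    | nil => intro _; rfl
    | @cons a b c hab q ih =>
      intro hp
      have ha := nn z a (hp a (by simp))
      have hb := nn z b (hp b (by simp))
      have h1 : reg z.1 a.1 = reg z.1 b.1 := by
        unfold TG at hab
        rw [SimpleGraph.fromRel_adj] at hab
        rcases hab.2 with h | h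
        · exact key_up B A z.1 a.1 b.1 ha hb h
        · exact (key_up B A z.1 b.1 a.1 hb ha h).symm
      rw [h1]
      exact ih (fun v hv => hp v (by simp [hv]))
  rintro ⟨x, y, z, ⟨p, hp⟩, ⟨q, hq⟩, ⟨r, hr⟩⟩
  have e1 := walk z x y p hp
  have e2 := walk x y z q hq
  have e3 := walk y x z r hr
  have nzx := nn z x (hp x (by simp))
  have nzy := nn z y (hp y (by simp))
  have nxy := nn x y (hq y (by simp))
  have total : ∀ a b : P, NN B A a b → lt a b ∨ lt b a := by
    intro a b h
    rcases lt_trichotomy a.1 b.1 with h1 | h1 | h1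
    · exact Or.inl (Or.inl h1)
    · have := ne_pos h.1 h1.symm (h.same h1.symm)
      unfold lt
      omega
    · exact Or.inr (Or.inl h1)
  have t1 := total _ _ nzx
  have t2 := total _ _ nzy
  have t3 := total _ _ nxy
  rcases t1 with t1 | t1 <;> rcases t2 with t2 | t2 <;> rcases t3 with t3 | t3
  · exact middle B A _ _ _ t1 t3 nzy e2.symm
  · exact middle B A _ _ _ t2 t3 nzx e3.symm
  · unfold lt at *; omega
  · exact middle B A _ _ _ t2 t1 nxy.symm e1.symm
  · exact middle B A _ _ _ t1 t2 nxy e1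
  · unfold lt at *; omega
  · exact middle B A _ _ _ t3 t2 nzx.symm e3
  · exact middle B A _ _ _ t3 t1 nzy.symm e2

end Pool.Agent.Helper35.AT
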